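import Pool.Agent.Y288.VG.RectC

set_option autoImplicit false

open Complex Set Metric Filter Topology MeasureTheory
open scoped Real Interval

namespace Pool.Agent.Y288.VG

/-- the entire kernel `(1 - exp (-L w)) / w` -/
noncomputable def EK (L : ℝ) (w : ℂ) : ℂ := -dslope (fun w : ℂ => Complex.exp (-(L * w))) 0 w

theorem EK_diff (L : ℝ) : Differentiable ℂ (EK L) := by
  have h : DifferentiableOn ℂ (fun w : ℂ => Complex.exp (-(L * w))) univ := by
    exact Differentiable.differentiableOn (by fun_prop)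
  have h1 := (Complex.differentiableOn_dslope (c := 0) univ_mem).2 h
  exact (differentiableOn_univ.1 h1).neg

theorem EK_eq (L : ℝ) {w : ℂ} (hw : w ≠ 0) :
    EK L w = w⁻¹ - Complex.exp (-(L * w)) * w⁻¹ := by
  unfold EK
  rw [dslope_of_ne _ hw, slope_def_field]
  simp only [mul_zero, neg_zero, Complex.exp_zero, sub_zero]
  field_simp
  ring

theorem EK_err (L : ℝ) (hL : 0 ≤ L) {w : ℂ} {g : ℝ} (hg : 0 < g) (hw : g ≤ w.re) :
    ‖EK L w - w⁻¹‖ ≤ Real.exp (-(L * g)) * g⁻¹ := by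
  have hw0 : w ≠ 0 := by
    rintro rfl
    simp at hw
    linarith
  rw [EK_eq L hw0]
  have e : w⁻¹ - Complex.exp (-(L * w)) * w⁻¹ - w⁻¹ = -(Complex.exp (-(L * w)) * w⁻¹) := by ring
  rw [e, norm_neg, norm_mul, norm_inv, Complex.norm_exp]
  have h1 : (-(L * w) : ℂ).re = -(L * w.re) := by simp
  rw [h1]
  have h2 : g ≤ ‖w‖ := hw.trans (Complex.re_le_norm w)
  refine mul_le_mul (Real.exp_le_exp.2 (by nlinarith)) (inv_anti₀ hg h2) (by positivity)
    (Real.exp_pos _).le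

variable {W : Type*} [NormedAddCommGroup W] [NormedSpace ℂ W] [CompleteSpace W]

theorem approx_larger {α β γ δ α' β' γ' δ' : ℝ} (ha : α' < α) (h2 : α < β) (hb : β < β')
    (hc : γ' < γ) (h4 : γ < δ) (hd : δ < δ') {g : ℂ → W}
    (hgc : ContinuousOn g (Icc α' β' ×ℂ Icc γ' δ'))
    (hgd : DifferentiableOn ℂ g (Ioo α' β' ×ℂ Ioo γ' δ')) {ε : ℝ} (hε : 0 < ε) :
    ∃ F : ℂ → W, DifferentiableOn ℂ F {x | α' < x.re ∧ γ' < x.im ∧ x.im < δ'} ∧
      ∀ z ∈ Icc α β ×ℂ Icc γ δ, ‖F z - g z‖ < ε := by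
  have h2' : α' < β' := by linarith
  have h4' : γ' < δ' := by linarith
  have hcb : ContinuousOn g (bdry α' β' γ' δ') := hgc.mono (bdry_sub h2'.le h4'.le)
  have s1 := side1 h2'.le hcb
  have s2 := side2 h2'.le hcb
  have s3 := side3 h4'.le hcb
  have s4 := side4 h4'.le hcb
  obtain ⟨M, hM⟩ := isCompact_uIcc.exists_bound_of_continuousOn s3
  have hM0 : 0 ≤ M := (norm_nonneg _).trans (hM γ' left_mem_uIcc)
  have hgap : 0 < β' - β := by linarith
  -- choose L
  have hlim : Tendsto (fun L : ℝ => Real.exp (-(L * (β' - β))) * (β' - β)⁻¹ * M * |δ' - γ'|) atTop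
      (𝓝 0) := by
    have h1 : Tendsto (fun L : ℝ => Real.exp (-(L * (β' - β)))) atTop (𝓝 0) := by
      refine Real.tendsto_exp_atBot.comp ?_
      refine tendsto_neg_atTop_atBot.comp ?_
      exact tendsto_id.atTop_mul_const hgap
    have h2 := ((h1.mul_const ((β' - β)⁻¹)).mul_const M).mul_const |δ' - γ'|
    simpa using h2
  obtain ⟨L, hL1, hL2⟩ := ((hlim.eventually (gt_mem_nhds hε)).and (eventually_ge_atTop 0)).exists
  refine ⟨fun x => (2 * π * I : ℂ)⁻¹ • ((∫ t : ℝ in α'..β', ((t + γ' * I : ℂ) - x)⁻¹ • g (t + γ' * I)) -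
          (∫ t : ℝ in α'..β', ((t + δ' * I : ℂ) - x)⁻¹ • g (t + δ' * I)) +
          I • (∫ y : ℝ in γ'..δ', EK L ((β' + y * I : ℂ) - x) • g (β' + y * I)) -
          I • (∫ y : ℝ in γ'..δ', ((α' + y * I : ℂ) - x)⁻¹ • g (α' + y * I))), ?_, ?_⟩
  · refine DifferentiableOn.const_smul ?_ _
    refine ((DifferentiableOn.sub ?_ ?_).add (DifferentiableOn.const_smul ?_ _)).sub
      (DifferentiableOn.const_smul ?_ _)
    · refine (side_diff (ζ := fun t : ℝ => (t : ℂ) + γ' * I) (by fun_prop) s1).mono ?_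
      rintro x ⟨hx1, hx2, hx3⟩ t _ he
      have := congrArg Complex.im he
      simp at this
      linarith
    · refine (side_diff (ζ := fun t : ℝ => (t : ℂ) + δ' * I) (by fun_prop) s2).mono ?_
      rintro x ⟨hx1, hx2, hx3⟩ t _ he
      have := congrArg Complex.im he
      simp at this
      linarith
    · exact (side_entire (ζ := fun t : ℝ => (β' : ℂ) + t * I) (by fun_prop) s3
        (EK_diff L)).differentiableOn
    · refine (side_diff (ζ := fun t : ℝ => (α' : ℂ) + t * I) (by fun_prop) s4).mono ?_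
      rintro x ⟨hx1, hx2, hx3⟩ t _ he
      have := congrArg Complex.re he
      simp at this
      linarith
  · intro z hz
    rw [mem_reProdIm] at hz
    have hz' : z ∈ Ioo α' β' ×ℂ Ioo γ' δ' :=
      mem_reProdIm.2 ⟨⟨by linarith [hz.1.1], by linarith [hz.1.2]⟩,
        ⟨by linarith [hz.2.1], by linarith [hz.2.2]⟩⟩
    have hcau := cauchy_rect h2'.le h4'.le hgc hgd hz'
    have hg : g z = (2 * π * I : ℂ)⁻¹ • Bd α' β' γ' δ' (fun w => (w - z)⁻¹ • g w) := by
      rw [hcau, smul_smul, inv_mul_cancel₀ (by simp [Real.pi_ne_zero, I_ne_zero]), one_smul]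
    have cE : ContinuousOn (fun y : ℝ => EK L ((β' + y * I : ℂ) - z) • g (β' + y * I))
        (uIcc γ' δ') := by
      refine ContinuousOn.smul ?_ s3
      exact ((EK_diff L).continuous.comp (by fun_prop)).continuousOn
    have cI : ContinuousOn (fun y : ℝ => ((β' + y * I : ℂ) - z)⁻¹ • g (β' + y * I))
        (uIcc γ' δ') := by
      refine ContinuousOn.smul (ContinuousOn.inv₀ (by fun_prop) fun t _ h0 => ?_) s3
      have := congrArg Complex.re h0
      simp at this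
      linarith [hz.1.2]
    have hdiff : (2 * π * I : ℂ)⁻¹ • ((∫ t : ℝ in α'..β', ((t + γ' * I : ℂ) - z)⁻¹ • g (t + γ' * I)) -
          (∫ t : ℝ in α'..β', ((t + δ' * I : ℂ) - z)⁻¹ • g (t + δ' * I)) +
          I • (∫ y : ℝ in γ'..δ', EK L ((β' + y * I : ℂ) - z) • g (β' + y * I)) -
          I • (∫ y : ℝ in γ'..δ', ((α' + y * I : ℂ) - z)⁻¹ • g (α' + y * I))) - g z =
        ((2 * π * I : ℂ)⁻¹ * I) • ∫ y : ℝ in γ'..δ',
          (EK L ((β' + y * I : ℂ) - z) - ((β' + y * I : ℂ) - z)⁻¹) • g (β' + y * I) := by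
      have e1 : (∫ y : ℝ in γ'..δ',
          (EK L ((β' + y * I : ℂ) - z) - ((β' + y * I : ℂ) - z)⁻¹) • g (β' + y * I)) =
          (∫ y : ℝ in γ'..δ', EK L ((β' + y * I : ℂ) - z) • g (β' + y * I)) -
          ∫ y : ℝ in γ'..δ', ((β' + y * I : ℂ) - z)⁻¹ • g (β' + y * I) := by
        rw [← intervalIntegral.integral_sub cE.intervalIntegrable cI.intervalIntegrable]
        congr 1; ext y
        rw [sub_smul]
      rw [hg, e1, ← smul_sub, mul_smul]
      congr 1
      unfold Bd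
      rw [smul_sub]
      abel
    rw [hdiff, norm_smul]
    have hn : ‖(2 * π * I : ℂ)⁻¹ * I‖ ≤ 1 := by
      rw [norm_mul, norm_inv, norm_mul, norm_mul, norm_I, Complex.norm_ofNat, norm_real,
        Real.norm_eq_abs, abs_of_pos Real.pi_pos, mul_one, mul_one]
      refine inv_le_one_of_one_le₀ ?_
      nlinarith [Real.pi_gt_three]
    have hb := intervalIntegral.norm_integral_le_of_norm_le_const (a := γ') (b := δ')
      (C := Real.exp (-(L * (β' - β))) * (β' - β)⁻¹ * M)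
      (f := fun y : ℝ => (EK L ((β' + y * I : ℂ) - z) - ((β' + y * I : ℂ) - z)⁻¹) •
        g (β' + y * I)) (by
        intro y hy
        rw [norm_smul]
        refine mul_le_mul (EK_err L hL2 hgap ?_) (hM y (uIoc_subset_uIcc hy)) (norm_nonneg _)
          (by positivity)
        simp
        linarith [hz.1.2])
    calc _ ≤ 1 * (Real.exp (-(L * (β' - β))) * (β' - β)⁻¹ * M * |δ' - γ'|) :=
          mul_le_mul hn hb (norm_nonneg _) zero_le_one
      _ < ε := by rw [one_mul]; exact hL1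

/-- JOB A2. Density for rectangles. -/
theorem rect_dense {W : Type*} [NormedAddCommGroup W] [NormedSpace ℂ W] [CompleteSpace W]
    {α β b γ δ : ℝ} (h2 : α < β) (h3 : β ≤ b) (h4 : γ < δ)
    {f : ℂ → W} (hc : ContinuousOn f (Icc α β ×ℂ Icc γ δ))
    (hd : DifferentiableOn ℂ f (Ioo α β ×ℂ Ioo γ δ)) {ε : ℝ} (hε : 0 < ε) :
    ∃ F : ℂ → W, ContinuousOn F (Icc α b ×ℂ Icc γ δ) ∧ DifferentiableOn ℂ F (Ioo α b ×ℂ Ioo γ δ) ∧
      ∀ z ∈ Icc α β ×ℂ Icc γ δ, ‖F z - f z‖ < ε := by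
  -- uniform continuity
  have hcomp : IsCompact (Icc α β ×ℂ Icc γ δ) := isCompact_Icc.reProdIm isCompact_Icc
  have huc := hcomp.uniformContinuousOn_of_continuous hc
  obtain ⟨η, hη, hηf⟩ := Metric.uniformContinuousOn_iff.1 huc (ε / 2) (by linarith)
  set c : ℂ := ⟨(α + β) / 2, (γ + δ) / 2⟩ with hcdef
  -- a dilation factor
  obtain ⟨s, hs0, hs1, hsη⟩ : ∃ s : ℝ, 0 < s ∧ s < 1 ∧ (1 - s) * ((β - α) + (δ - γ)) < η := by
    have hlim : Tendsto (fun s : ℝ => (1 - s) * ((β - α) + (δ - γ))) (𝓝[<] 1) (𝓝 0) := by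
      have : Tendsto (fun s : ℝ => (1 - s) * ((β - α) + (δ - γ))) (𝓝 1)
          (𝓝 ((1 - 1) * ((β - α) + (δ - γ)))) := by
        refine Tendsto.mul_const _ (tendsto_const_nhds.sub tendsto_id)
      rw [sub_self, zero_mul] at this
      exact this.mono_left nhdsWithin_le_nhds
    have h1 := hlim.eventually (gt_mem_nhds hη)
    have h2 : ∀ᶠ s : ℝ in 𝓝[<] 1, 0 < s :=
      (lt_mem_nhds (by norm_num : (0:ℝ) < 1)).filter_mono nhdsWithin_le_nhds
    have h3 : ∀ᶠ s : ℝ in 𝓝[<] 1, s < 1 := self_mem_nhdsWithin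
    obtain ⟨s, h4, h5, h6⟩ := (h1.and (h2.and h3)).exists
    exact ⟨s, h5, h6, h4⟩
  have hmap : ∀ z : ℂ, (c + s * (z - c)).re = (α + β) / 2 + s * (z.re - (α + β) / 2) ∧
      (c + s * (z - c)).im = (γ + δ) / 2 + s * (z.im - (γ + δ) / 2) := by
    intro z
    constructor <;> simp [hcdef]
  set r : ℝ := s⁻¹ with hr
  have hr1 : 1 < r := (one_lt_inv₀ hs0).2 hs1
  have hrs : s * r = 1 := mul_inv_cancel₀ hs0.ne'
  set α' := (α + β) / 2 - r * ((β - α) / 2) with hα'
  set β' := (α + β) / 2 + r * ((β - α) / 2) with hβ'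
  set γ' := (γ + δ) / 2 - r * ((δ - γ) / 2) with hγ'
  set δ' := (γ + δ) / 2 + r * ((δ - γ) / 2) with hδ'
  have ha : α' < α := by rw [hα']; nlinarith
  have hb : β < β' := by rw [hβ']; nlinarith
  have hcc : γ' < γ := by rw [hγ']; nlinarith
  have hdd : δ < δ' := by rw [hδ']; nlinarith
  have hm1 : ∀ z ∈ Icc α' β' ×ℂ Icc γ' δ', c + s * (z - c) ∈ Icc α β ×ℂ Icc γ δ := by
    intro z hz
    rw [mem_reProdIm] at hz ⊢
    obtain ⟨⟨k1, k2⟩, k3, k4⟩ := hz
    rw [(hmap z).1, (hmap z).2]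
    have j1 : s * α' ≤ s * z.re := mul_le_mul_of_nonneg_left k1 hs0.le
    have j2 : s * z.re ≤ s * β' := mul_le_mul_of_nonneg_left k2 hs0.le
    have j3 : s * γ' ≤ s * z.im := mul_le_mul_of_nonneg_left k3 hs0.le
    have j4 : s * z.im ≤ s * δ' := mul_le_mul_of_nonneg_left k4 hs0.le
    have i1 : s * α' = s * ((α + β) / 2) - (s * r) * ((β - α) / 2) := by rw [hα']; ring
    have i2 : s * β' = s * ((α + β) / 2) + (s * r) * ((β - α) / 2) := by rw [hβ']; ring
    have i3 : s * γ' = s * ((γ + δ) / 2) - (s * r) * ((δ - γ) / 2) := by rw [hγ']; ring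
    have i4 : s * δ' = s * ((γ + δ) / 2) + (s * r) * ((δ - γ) / 2) := by rw [hδ']; ring
    rw [hrs] at i1 i2 i3 i4
    refine ⟨⟨?_, ?_⟩, ?_, ?_⟩ <;> linarith
  have hm2 : ∀ z ∈ Ioo α' β' ×ℂ Ioo γ' δ', c + s * (z - c) ∈ Ioo α β ×ℂ Ioo γ δ := by
    intro z hz
    rw [mem_reProdIm] at hz ⊢
    obtain ⟨⟨k1, k2⟩, k3, k4⟩ := hz
    rw [(hmap z).1, (hmap z).2]
    have j1 : s * α' < s * z.re := mul_lt_mul_of_pos_left k1 hs0
    have j2 : s * z.re < s * β' := mul_lt_mul_of_pos_left k2 hs0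
    have j3 : s * γ' < s * z.im := mul_lt_mul_of_pos_left k3 hs0
    have j4 : s * z.im < s * δ' := mul_lt_mul_of_pos_left k4 hs0
    have i1 : s * α' = s * ((α + β) / 2) - (s * r) * ((β - α) / 2) := by rw [hα']; ring
    have i2 : s * β' = s * ((α + β) / 2) + (s * r) * ((β - α) / 2) := by rw [hβ']; ring
    have i3 : s * γ' = s * ((γ + δ) / 2) - (s * r) * ((δ - γ) / 2) := by rw [hγ']; ring
    have i4 : s * δ' = s * ((γ + δ) / 2) + (s * r) * ((δ - γ) / 2) := by rw [hδ']; ring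
    rw [hrs] at i1 i2 i3 i4
    refine ⟨⟨?_, ?_⟩, ?_, ?_⟩ <;> linarith
  have hgc : ContinuousOn (fun z => f (c + s * (z - c))) (Icc α' β' ×ℂ Icc γ' δ') :=
    hc.comp (by fun_prop) hm1
  have hgd : DifferentiableOn ℂ (fun z => f (c + s * (z - c))) (Ioo α' β' ×ℂ Ioo γ' δ') :=
    hd.comp (f := fun z => c + s * (z - c)) (by fun_prop) hm2
  obtain ⟨F, hF, hFε⟩ := approx_larger ha h2 hb hcc h4 hdd hgc hgd (half_pos hε)
  refine ⟨F, ?_, ?_, ?_⟩
  · refine hF.continuousOn.mono ?_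
    intro z hz
    rw [mem_reProdIm] at hz
    exact ⟨by linarith [hz.1.1], by linarith [hz.2.1], by linarith [hz.2.2]⟩
  · refine hF.mono ?_
    intro z hz
    rw [mem_reProdIm] at hz
    exact ⟨by linarith [hz.1.1], by linarith [hz.2.1], by linarith [hz.2.2]⟩
  · intro z hz
    have hz1 : c + s * (z - c) ∈ Icc α β ×ℂ Icc γ δ := by
      refine hm1 z ?_
      rw [mem_reProdIm] at hz ⊢
      exact ⟨⟨by linarith [hz.1.1], by linarith [hz.1.2]⟩, by linarith [hz.2.1],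
        by linarith [hz.2.2]⟩
    have hdist : dist (c + s * (z - c)) z < η := by
      rw [dist_eq_norm]
      have e : c + s * (z - c) - z = ((1 - s : ℝ) : ℂ) * (c - z) := by push_cast; ring
      rw [e, norm_mul, norm_real, Real.norm_eq_abs, abs_of_pos (by linarith)]
      refine lt_of_le_of_lt (mul_le_mul_of_nonneg_left ?_ (by linarith)) hsη
      refine (Complex.norm_le_abs_re_add_abs_im _).trans ?_
      rw [mem_reProdIm] at hz
      obtain ⟨⟨k1, k2⟩, k3, k4⟩ := hz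
      simp only [hcdef, sub_re, sub_im]
      refine add_le_add ?_ ?_ <;> rw [abs_le] <;> constructor <;> linarith
    have h5 := hηf _ hz1 _ hz hdist
    rw [dist_eq_norm] at h5
    have h6 := hFε z hz
    calc ‖F z - f z‖ = ‖(F z - f (c + s * (z - c))) + (f (c + s * (z - c)) - f z)‖ := by
          rw [sub_add_sub_cancel]
      _ ≤ ‖F z - f (c + s * (z - c))‖ + ‖f (c + s * (z - c)) - f z‖ := norm_add_le _ _
      _ < ε / 2 + ε / 2 := add_lt_add h6 h5
      _ = ε := by ring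

end Pool.Agent.Y288.VG
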