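import Mathlib

set_option autoImplicit false

open Complex Set Metric Filter Topology

namespace Pool.Agent.Y288.VG

section algebra

variable {B : Type*} [NormedAddCommGroup B] [NormedSpace ℂ B]

/-- the minor of the Hankel matrix with columns `(j_m, φ_m)` -/
noncomputable def minor {N : ℕ} (b : ℕ → B) (c : Fin (N + 1) → ℕ × (B →L[ℂ] ℂ)) : ℂ :=
  (Matrix.of fun i m : Fin (N + 1) => (c m).2 (b (i + (c m).1))).det

theorem dep_iff_minor {N : ℕ} (b : ℕ → B) :
    (∃ p : Fin (N + 1) → ℂ, p ≠ 0 ∧ ∀ j : ℕ, ∑ i : Fin (N + 1), p i • b (i + j) = 0) ↔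
      ∀ c : Fin (N + 1) → ℕ × (B →L[ℂ] ℂ), minor b c = 0 := by
  constructor
  · rintro ⟨p, hp, h⟩ c
    unfold minor
    rw [← Matrix.exists_vecMul_eq_zero_iff]
    refine ⟨p, hp, ?_⟩
    ext m
    have h1 := congrArg (c m).2 (h (c m).1)
    rw [map_sum, map_zero] at h1
    simp only [map_smul, smul_eq_mul] at h1
    simpa [Matrix.vecMul, dotProduct] using h1
  · intro h
    -- the span of the columns
    let col : ℕ × (B →L[ℂ] ℂ) → (Fin (N + 1) → ℂ) := fun q i => q.2 (b (i + q.1))
    let W : Submodule ℂ (Fin (N + 1) → ℂ) := Submodule.span ℂ (range col)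
    have hW : W ≠ ⊤ := by
      intro htop
      obtain ⟨s, hs, hspan, hli⟩ := exists_linearIndependent ℂ (range col)
      have hspan' : Submodule.span ℂ s = ⊤ := by rw [hspan]; exact htop
      have hfin : s.Finite := by
        have := hli.setFinite
        exact this
      have : Fintype s := hfin.fintype
      have hcard : Fintype.card s = N + 1 := by
        let bas := Module.Basis.mk hli (by rw [Subtype.range_coe, hspan'])
        have h1 := Module.finrank_eq_card_basis bas
        rw [Module.finrank_fin_fun] at h1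
        exact h1.symm
      let e : Fin (N + 1) ≃ s := (Fintype.equivFinOfCardEq hcard).symm
      have hch : ∀ m : Fin (N + 1), ∃ q, col q = (e m : Fin (N + 1) → ℂ) := fun m => hs (e m).2
      choose c hc using hch
      have h2 := h c
      unfold minor at h2
      have h3 : (Matrix.of fun i m : Fin (N + 1) => (c m).2 (b (i + (c m).1))).transpose =
          Matrix.of fun m i => (e m : Fin (N + 1) → ℂ) i := by
        ext m i
        rw [Matrix.transpose_apply, Matrix.of_apply, Matrix.of_apply, ← hc m]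
      rw [← Matrix.det_transpose, h3] at h2
      have h4 : LinearIndependent ℂ (Matrix.of fun m i => (e m : Fin (N + 1) → ℂ) i).row := by
        have := hli.comp e e.injective
        exact this
      rw [Matrix.linearIndependent_rows_iff_isUnit, Matrix.isUnit_iff_isUnit_det, h2] at h4
      exact not_isUnit_zero h4
    obtain ⟨f, hf0, hfW⟩ := Submodule.exists_le_ker_of_lt_top W (lt_top_iff_ne_top.2 hW)
    refine ⟨fun i => f (Pi.single i 1), ?_, ?_⟩
    · intro h0
      apply hf0
      refine LinearMap.pi_ext' fun i => ?_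
      ext
      have := congrFun h0 i
      simpa using this
    · intro j
      by_contra hne
      obtain ⟨φ, -, hφ⟩ := exists_dual_vector ℂ (∑ i : Fin (N + 1), f (Pi.single i 1) • b (i + j))
        (norm_ne_zero_iff.2 hne)
      have h1 : f (col (j, φ)) = 0 := hfW (Submodule.subset_span ⟨_, rfl⟩)
      have h2 : f (col (j, φ)) = φ (∑ i : Fin (N + 1), f (Pi.single i 1) • b (i + j)) := by
        rw [map_sum]
        have e1 : col (j, φ) = ∑ i : Fin (N + 1), (col (j, φ) i) • (Pi.single i (1 : ℂ) : Fin (N + 1) → ℂ) := by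
          ext k
          simp [Finset.sum_apply, Pi.single_apply]
        conv_lhs => rw [e1]
        rw [map_sum]
        refine Finset.sum_congr rfl fun i _ => ?_
        rw [map_smul, map_smul, smul_eq_mul, smul_eq_mul, mul_comm]
      rw [h1] at h2
      rw [← h2] at hφ
      have h3 : (‖∑ i : Fin (N + 1), f (Pi.single i 1) • b (i + j)‖ : ℂ) ≠ 0 := by
        exact_mod_cast norm_ne_zero_iff.2 hne
      exact h3 hφ.symm

end algebra

/-- Hankel-type linear dependence propagates. -/
theorem hankel_baire {B : Type*} [NormedAddCommGroup B] [NormedSpace ℂ B] {U G : Set ℂ}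
    (hU : IsOpen U) (hUc : IsPreconnected U) (hG : IsOpen G) (hGU : G ⊆ U) (hGn : G.Nonempty)
    (a : ℕ → ℂ → B) (ha : ∀ j, DifferentiableOn ℂ (a j) U)
    (h : ∀ t ∈ G, ∃ N : ℕ, ∃ p : Fin (N + 1) → ℂ, p ≠ 0 ∧
      ∀ j : ℕ, ∑ i : Fin (N + 1), p i • a (i + j) t = 0) :
    ∃ N : ℕ, ∀ t ∈ U, ∃ p : Fin (N + 1) → ℂ, p ≠ 0 ∧
      ∀ j : ℕ, ∑ i : Fin (N + 1), p i • a (i + j) t = 0 := by
  obtain ⟨t0, ht0⟩ := hGn
  obtain ⟨r, hr, hball⟩ := Metric.isOpen_iff.1 hG t0 ht0
  have hK : closedBall t0 (r / 2) ⊆ U :=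
    (closedBall_subset_ball (by linarith)).trans (hball.trans hGU)
  have hmd : ∀ (N : ℕ) (c : Fin (N + 1) → ℕ × (B →L[ℂ] ℂ)),
      DifferentiableOn ℂ (fun t => minor (fun j => a j t) c) U := by
    intro N c
    unfold minor
    simp_rw [Matrix.det_apply]
    refine DifferentiableOn.fun_sum fun σ _ => ?_
    refine DifferentiableOn.const_smul ?_ _
    refine DifferentiableOn.fun_finset_prod fun m _ => ?_
    exact ((c m).2.differentiable.comp_differentiableOn (ha _))
  let F : ℕ → Set ℂ := fun N => (ball t0 (r / 2))ᶜ ∪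
    (closedBall t0 (r / 2) ∩ {t | ∀ c : Fin (N + 1) → ℕ × (B →L[ℂ] ℂ),
      minor (fun j => a j t) c = 0})
  have hFc : ∀ N, IsClosed (F N) := by
    intro N
    refine isOpen_ball.isClosed_compl.union ?_
    have e : closedBall t0 (r / 2) ∩ {t | ∀ c : Fin (N + 1) → ℕ × (B →L[ℂ] ℂ),
        minor (fun j => a j t) c = 0} = ⋂ c : Fin (N + 1) → ℕ × (B →L[ℂ] ℂ),
        (closedBall t0 (r / 2) ∩ (fun t => minor (fun j => a j t) c) ⁻¹' {0}) := by
      ext t
      simp only [mem_inter_iff, mem_setOf_eq, mem_iInter, mem_preimage, mem_singleton_iff]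
      exact ⟨fun h c => ⟨h.1, h.2 c⟩, fun h => ⟨(h fun _ => (0, 0)).1, fun c => (h c).2⟩⟩
    rw [e]
    refine isClosed_iInter fun c => ?_
    exact ((hmd N c).continuousOn.mono hK).preimage_isClosed_of_isClosed isClosed_closedBall
      isClosed_singleton
  have hFU : ⋃ N, F N = univ := by
    refine eq_univ_of_forall fun t => ?_
    by_cases ht : t ∈ ball t0 (r / 2)
    · obtain ⟨N, hN⟩ := h t (hball (ball_subset_ball (by linarith) ht))
      refine mem_iUnion.2 ⟨N, Or.inr ⟨ball_subset_closedBall ht, ?_⟩⟩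
      exact (dep_iff_minor (fun j => a j t)).1 hN
    · exact mem_iUnion.2 ⟨0, Or.inl ht⟩
  have hd := dense_iUnion_interior_of_closed hFc hFU
  obtain ⟨x, hx, hxb⟩ := hd.inter_open_nonempty (ball t0 (r / 2)) isOpen_ball
    ⟨t0, mem_ball_self (by linarith)⟩
  obtain ⟨N, hN⟩ := mem_iUnion.1 hxb
  refine ⟨N, fun t ht => (dep_iff_minor (fun j => a j t)).2 fun c => ?_⟩
  have han : AnalyticOnNhd ℂ (fun t => minor (fun j => a j t) c) U := (hmd N c).analyticOnNhd hU
  have hxU : x ∈ U := hK (ball_subset_closedBall hx)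
  refine han.eqOn_zero_of_preconnected_of_eventuallyEq_zero hUc hxU ?_ ht
  filter_upwards [isOpen_ball.mem_nhds hx, isOpen_interior.mem_nhds hN] with y hy1 hy2
  rcases interior_subset hy2 with h1 | h1
  · exact absurd hy1 h1
  · exact h1.2 c

end Pool.Agent.Y288.VG
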