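import Mathlib

set_option autoImplicit false

open Complex Set Metric Filter Topology
open scoped Real

namespace Pool.Agent.Y288.VG

variable {W : Type*} [NormedAddCommGroup W] [NormedSpace ℂ W]

/-- the Cauchy integral over the circle of radius `s` -/
noncomputable def cau (f : ℂ → W) (s : ℝ) (x : ℂ) : W :=
  (2 * π * I : ℂ)⁻¹ • ∮ z in C(0, s), (z - x)⁻¹ • f z

theorem two_pi_I_ne : (2 * π * I : ℂ) ≠ 0 := by
  simp [Real.pi_ne_zero, I_ne_zero]

theorem cau_diff {f : ℂ → W} {s : ℝ} (hs : 0 < s) [CompleteSpace W]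
    (hf : ContinuousOn f (sphere 0 s)) : DifferentiableOn ℂ (cau f s) (ball 0 s) := by
  lift s to NNReal using hs.le
  have h1 : CircleIntegrable f 0 s := hf.circleIntegrable hs.le
  have := hasFPowerSeriesOn_cauchy_integral h1 (by exact_mod_cast hs)
  have h2 := this.differentiableOn
  rw [Metric.eball_coe] at h2
  exact h2

/-- inversion in a circle integral -/
theorem circle_inv {r : ℝ} (hr : 0 < r) (F : ℂ → W) :
    (∮ ζ in C(0, r⁻¹), F ζ) = ∮ w in C(0, r), (w ^ 2)⁻¹ • F w⁻¹ := by
  unfold circleIntegral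
  set φ : ℝ → W := fun θ => deriv (circleMap 0 r⁻¹) θ • F (circleMap 0 r⁻¹ θ) with hφ
  have hinv : ∀ θ : ℝ, (circleMap 0 r θ)⁻¹ = circleMap 0 r⁻¹ (-θ) := by
    intro θ
    simp only [circleMap, zero_add, mul_inv, ofReal_inv, ofReal_neg, neg_mul, Complex.exp_neg]
  have h1 : ∀ θ : ℝ, deriv (circleMap 0 r) θ • ((circleMap 0 r θ) ^ 2)⁻¹ • F (circleMap 0 r θ)⁻¹ =
      φ (-θ) := by
    intro θ
    have hne : circleMap 0 r θ ≠ 0 := circleMap_ne_center hr.ne'
    rw [hφ]
    simp only [deriv_circleMap]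
    rw [hinv, ← hinv θ, smul_smul]
    congr 1
    field_simp
  have hper : Function.Periodic φ (2 * π) := by
    intro θ
    simp only [hφ, deriv_circleMap]
    rw [periodic_circleMap 0 r⁻¹ θ]
  have h2 : (∫ θ in (0 : ℝ)..2 * π, φ (-θ)) = ∫ θ in (0 : ℝ)..2 * π, φ θ := by
    rw [intervalIntegral.integral_comp_neg]
    have := hper.intervalIntegral_add_eq (-(2 * π)) 0
    simpa using this
  rw [← h2]
  refine intervalIntegral.integral_congr fun θ _ => ?_
  exact (h1 θ).symm

variable [CompleteSpace W]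

theorem cau_annulus {r R : ℝ} (hr : 0 < r) (hR : r < R) {f : ℂ → W}
    (hc : ContinuousOn f (closedBall 0 R \ ball 0 r))
    (hd : DifferentiableOn ℂ f (ball 0 R \ closedBall 0 r)) {x : ℂ}
    (hx : x ∈ ball (0 : ℂ) R \ closedBall 0 r) : f x = cau f R x - cau f r x := by
  have hR0 : 0 < R := hr.trans hR
  have hopen : IsOpen (ball (0 : ℂ) R \ closedBall 0 r) := isOpen_ball.sdiff isClosed_closedBall
  have hsub : ball (0 : ℂ) R \ closedBall 0 r ⊆ closedBall 0 R \ ball 0 r := by
    rintro z ⟨h1, h2⟩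
    exact ⟨ball_subset_closedBall h1, fun h3 => h2 (ball_subset_closedBall h3)⟩
  have hdx : DifferentiableAt ℂ f x := (hd x hx).differentiableAt (hopen.mem_nhds hx)
  have hcF : ContinuousOn (dslope f x) (closedBall 0 R \ ball 0 r) :=
    (continuousOn_dslope (mem_of_superset (hopen.mem_nhds hx) hsub)).2 ⟨hc, hdx⟩
  have hdF : ∀ z ∈ (ball (0 : ℂ) R \ closedBall 0 r) \ {x}, DifferentiableAt ℂ (dslope f x) z := by
    rintro z ⟨hz, hzx⟩
    exact (differentiableAt_dslope_of_ne hzx).2 ((hd z hz).differentiableAt (hopen.mem_nhds hz))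
  have HI := circleIntegral_eq_of_differentiable_on_annulus_off_countable hr hR.le
    (countable_singleton x) hcF hdF
  have key : ∀ s : ℝ, 0 < s → (∀ z ∈ sphere (0 : ℂ) s, z ≠ x) →
      ContinuousOn f (sphere (0 : ℂ) s) →
      (∮ z in C(0, s), dslope f x z) = (∮ z in C(0, s), (z - x)⁻¹ • f z) -
        (∮ z in C(0, s), (z - x)⁻¹) • f x := by
    intro s hs hne hcs
    have hc' : ContinuousOn (fun z => (z - x)⁻¹) (sphere 0 s) :=
      (continuousOn_id.sub continuousOn_const).inv₀ fun z hz => sub_ne_zero.2 <| hne z hz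
    have e1 : EqOn (dslope f x) (fun z => (z - x)⁻¹ • f z - (z - x)⁻¹ • f x) (sphere 0 s) := by
      intro z hz
      rw [dslope_of_ne _ (hne z hz), slope_def_module, smul_sub]
    have i1 : CircleIntegrable (fun z => (z - x)⁻¹ • f z) 0 s :=
      (hc'.smul hcs).circleIntegrable hs.le
    have i2 : CircleIntegrable (fun z => (z - x)⁻¹ • f x) 0 s :=
      (hc'.smul continuousOn_const).circleIntegrable hs.le
    rw [circleIntegral.integral_congr hs.le e1, circleIntegral.integral_sub i1 i2,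
      circleIntegral.integral_smul_const]
  have hsR : sphere (0 : ℂ) R ⊆ closedBall 0 R \ ball 0 r := by
    intro z hz
    rw [mem_sphere] at hz
    refine ⟨?_, ?_⟩
    · rw [mem_closedBall, hz]
    · rw [mem_ball, hz]; exact not_lt.2 hR.le
  have hsr : sphere (0 : ℂ) r ⊆ closedBall 0 R \ ball 0 r := by
    intro z hz
    rw [mem_sphere] at hz
    refine ⟨?_, ?_⟩
    · rw [mem_closedBall, hz]; exact hR.le
    · rw [mem_ball, hz]; exact lt_irrefl _
  have hneR : ∀ z ∈ sphere (0 : ℂ) R, z ≠ x := by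
    rintro z hz rfl
    rw [mem_sphere] at hz
    have := hx.1
    rw [mem_ball, hz] at this
    exact lt_irrefl _ this
  have hner : ∀ z ∈ sphere (0 : ℂ) r, z ≠ x := by
    rintro z hz rfl
    exact hx.2 (sphere_subset_closedBall hz)
  rw [key R hR0 hneR (hc.mono hsR), key r hr hner (hc.mono hsr),
    circleIntegral.integral_sub_inv_of_mem_ball hx.1] at HI
  have hz0 : (∮ z in C(0, r), (z - x)⁻¹) = 0 := by
    refine circleIntegral_eq_zero_of_differentiable_on_off_countable hr.le countable_empty ?_ ?_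
    · exact (continuousOn_id.sub continuousOn_const).inv₀ fun z hz =>
        sub_ne_zero.2 fun h => hx.2 (by rw [← (show z = x from h)]; exact hz)
    · rintro z ⟨hz, -⟩
      exact (differentiableAt_id.sub_const x).inv (sub_ne_zero.2 fun h =>
        hx.2 (ball_subset_closedBall (by rw [← (show z = x from h)]; exact hz)))
  rw [hz0, zero_smul, sub_zero] at HI
  unfold cau
  rw [← smul_sub, ← HI, sub_sub_cancel, smul_smul, inv_mul_cancel₀ two_pi_I_ne, one_smul]

/-- the exterior Cauchy integral as an interior one -/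
theorem cau_ext {r : ℝ} (hr : 0 < r) (f : ℂ → W) {x : ℂ} (hx : r < ‖x‖) :
    cau f r x = -(x⁻¹ • cau (fun ζ => ζ⁻¹ • f ζ⁻¹) r⁻¹ x⁻¹) := by
  have hx0 : x ≠ 0 := by
    intro h; rw [h, norm_zero] at hx; exact absurd hx (not_lt.2 hr.le)
  unfold cau
  rw [circle_inv hr, smul_comm x⁻¹, ← smul_neg, ← neg_smul,
    ← circleIntegral.integral_smul (-x⁻¹)]
  congr 1
  refine circleIntegral.integral_congr hr.le fun w hw => ?_
  rw [mem_sphere, dist_zero_right] at hw
  have hw0 : w ≠ 0 := by
    intro h; rw [h, norm_zero] at hw; exact hr.ne hw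
  have hwx : w - x ≠ 0 := by
    intro h
    rw [sub_eq_zero] at h
    rw [h] at hw
    exact hx.ne' hw
  simp only [inv_inv, smul_smul, ← neg_smul]
  congr 1
  have h1 : w⁻¹ - x⁻¹ = -(w - x) / (w * x) := by field_simp; ring
  rw [h1]
  field_simp

/-- Laurent splitting on a closed annulus, up to the boundary. -/
theorem ann_split {r R : ℝ} (hr : 0 < r) (hR : r < R)
    {f : ℂ → W} (hc : ContinuousOn f (closedBall 0 R \ ball 0 r))
    (hd : DifferentiableOn ℂ f (ball 0 R \ closedBall 0 r)) :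
    ∃ v u : ℂ → W, ContinuousOn v (closedBall 0 R) ∧ DifferentiableOn ℂ v (ball 0 R) ∧
      ContinuousOn u (closedBall 0 r⁻¹) ∧ DifferentiableOn ℂ u (ball 0 r⁻¹) ∧ u 0 = 0 ∧
      ∀ z ∈ closedBall 0 R \ ball 0 r, f z = v z + u z⁻¹ := by
  have hR0 : 0 < R := hr.trans hR
  have hri : 0 < r⁻¹ := inv_pos.2 hr
  have hsR : sphere (0 : ℂ) R ⊆ closedBall 0 R \ ball 0 r := by
    intro z hz
    rw [mem_sphere] at hz
    refine ⟨?_, ?_⟩
    · rw [mem_closedBall, hz]
    · rw [mem_ball, hz]; exact not_lt.2 hR.le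
  have hsr : sphere (0 : ℂ) r ⊆ closedBall 0 R \ ball 0 r := by
    intro z hz
    rw [mem_sphere] at hz
    refine ⟨?_, ?_⟩
    · rw [mem_closedBall, hz]; exact hR.le
    · rw [mem_ball, hz]; exact lt_irrefl _
  set g : ℂ → W := fun ζ => ζ⁻¹ • f ζ⁻¹ with hg
  have hgc : ContinuousOn g (sphere 0 r⁻¹) := by
    have h1 : ContinuousOn (fun ζ : ℂ => ζ⁻¹) (sphere 0 r⁻¹) :=
      continuousOn_inv₀.mono fun z hz h0 => by
        rw [mem_singleton_iff] at h0
        rw [mem_sphere, h0, dist_self] at hz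
        exact hri.ne hz
    refine h1.smul ((hc.mono hsr).comp h1 fun z hz => ?_)
    rw [mem_sphere, dist_zero_right] at hz ⊢
    rw [norm_inv, hz, inv_inv]
  -- the two pieces
  set v : ℂ → W := fun x => if ‖x‖ < R then cau f R x else f x + cau f r x with hv
  set u : ℂ → W := fun z => if ‖z‖ < r⁻¹ then z • cau g r⁻¹ z else f z⁻¹ - cau f R z⁻¹ with hu
  have hvR : DifferentiableOn ℂ (cau f R) (ball 0 R) := cau_diff hR0 (hc.mono hsR)
  have hur : DifferentiableOn ℂ (fun z => z • cau g r⁻¹ z) (ball 0 r⁻¹) :=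
    differentiableOn_id.smul (cau_diff hri hgc)
  -- the exterior Cauchy integral is continuous
  have hext : ∀ x : ℂ, r < ‖x‖ → cau f r x = -(x⁻¹ • cau g r⁻¹ x⁻¹) := fun x hx => cau_ext hr f hx
  have hcr : ContinuousOn (cau f r) {x | r < ‖x‖} := by
    have h1 : ContinuousOn (fun x : ℂ => x⁻¹) {x | r < ‖x‖} :=
      continuousOn_inv₀.mono fun z hz h0 => by
        rw [mem_singleton_iff] at h0
        rw [mem_setOf_eq, h0, norm_zero] at hz
        exact absurd hz (not_lt.2 hr.le)
    have h2 : ContinuousOn (fun x : ℂ => -(x⁻¹ • cau g r⁻¹ x⁻¹)) {x | r < ‖x‖} := by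
      refine ContinuousOn.neg ?_
      refine (hur.continuousOn).comp (f := fun x : ℂ => x⁻¹) h1 fun x hx => ?_
      rw [mem_setOf_eq] at hx
      rw [mem_ball, dist_zero_right, norm_inv]
      exact inv_strictAnti₀ hr hx
    exact h2.congr fun x hx => hext x hx
  have hvd : DifferentiableOn ℂ v (ball 0 R) := by
    refine hvR.congr fun x hx => ?_
    rw [mem_ball, dist_zero_right] at hx
    simp only [hv, if_pos hx]
  have hud : DifferentiableOn ℂ u (ball 0 r⁻¹) := by
    refine hur.congr fun x hx => ?_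
    rw [mem_ball, dist_zero_right] at hx
    simp only [hu, if_pos hx]
  -- formulas near the outer boundary
  have hvo : ∀ x : ℂ, r < ‖x‖ → ‖x‖ ≤ R → v x = f x + cau f r x := by
    intro x h1 h2
    rcases h2.lt_or_eq with h2 | h2
    · have h3 := cau_annulus hr hR hc hd (x := x) ⟨by simpa using h2, by simpa using h1⟩
      simp only [hv, if_pos h2]
      rw [h3]; abel
    · simp only [hv, h2, lt_irrefl, if_false]
  have huo : ∀ z : ℂ, R⁻¹ < ‖z‖ → ‖z‖ ≤ r⁻¹ → u z = f z⁻¹ - cau f R z⁻¹ := by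
    intro z h1 h2
    have hz0 : 0 < ‖z‖ := (inv_pos.2 hR0).trans h1
    rcases h2.lt_or_eq with h2 | h2
    · have h3 : r < ‖z⁻¹‖ := by rw [norm_inv]; exact (lt_inv_comm₀ hr hz0).2 h2
      have h4 : ‖z⁻¹‖ < R := by rw [norm_inv]; exact (inv_lt_comm₀ hz0 hR0).2 h1
      have h5 := cau_annulus hr hR hc hd (x := z⁻¹) ⟨by simpa using h4, by
        rw [mem_closedBall, dist_zero_right, not_le]; exact h3⟩
      simp only [hu, if_pos h2]
      rw [h5, hext _ h3, inv_inv]; abel
    · simp only [hu, h2, lt_irrefl, if_false]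
  refine ⟨v, u, ?_, hvd, ?_, hud, ?_, ?_⟩
  · intro x hx
    rw [mem_closedBall, dist_zero_right] at hx
    by_cases hxr : ‖x‖ < R
    · exact (hvd.continuousOn.continuousAt (isOpen_ball.mem_nhds (by simpa using hxr))).continuousWithinAt
    · have hxR : ‖x‖ = R := le_antisymm hx (not_lt.1 hxr)
      have h1 : ContinuousWithinAt (fun x => f x + cau f r x) (closedBall 0 R ∩ {x | r < ‖x‖}) x := by
        refine ContinuousWithinAt.add ?_ ?_
        · refine (hc x (hsR (by simpa using hxR))).mono ?_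
          rintro y ⟨hy1, hy2⟩
          rw [mem_setOf_eq] at hy2
          exact ⟨hy1, by rw [mem_ball, dist_zero_right, not_lt]; exact hy2.le⟩
        · refine (hcr x ?_).mono inter_subset_right
          rw [mem_setOf_eq, hxR]; exact hR
      have h2 : ContinuousWithinAt v (closedBall 0 R ∩ {x | r < ‖x‖}) x := by
        refine h1.congr ?_ (hvo x (by rw [hxR]; exact hR) hx)
        rintro y ⟨hy1, hy2⟩
        exact hvo y hy2 (by simpa using hy1)
      have h3 : {x : ℂ | r < ‖x‖} ∈ 𝓝 x := by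
        refine (isOpen_lt continuous_const continuous_norm).mem_nhds ?_
        rw [mem_setOf_eq, hxR]; exact hR
      exact (continuousWithinAt_inter h3).1 h2
  · intro z hz
    rw [mem_closedBall, dist_zero_right] at hz
    by_cases hzr : ‖z‖ < r⁻¹
    · exact (hud.continuousOn.continuousAt (isOpen_ball.mem_nhds (by simpa using hzr))).continuousWithinAt
    · have hzR : ‖z‖ = r⁻¹ := le_antisymm hz (not_lt.1 hzr)
      have hlt : R⁻¹ < r⁻¹ := inv_strictAnti₀ hr hR
      have hz0 : z ≠ 0 := by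
        intro h; rw [h, norm_zero] at hzR; exact hri.ne hzR
      have hinv : ContinuousWithinAt (fun z : ℂ => z⁻¹) (closedBall 0 r⁻¹ ∩ {x | R⁻¹ < ‖x‖}) z :=
        (continuousAt_inv₀ hz0).continuousWithinAt
      have h1 : ContinuousWithinAt (fun z => f z⁻¹ - cau f R z⁻¹)
          (closedBall 0 r⁻¹ ∩ {x | R⁻¹ < ‖x‖}) z := by
        refine ContinuousWithinAt.sub ?_ ?_
        · refine ContinuousWithinAt.comp (t := closedBall 0 R \ ball 0 r) ?_ hinv ?_
          · refine hc _ (hsr ?_)
            rw [mem_sphere, dist_zero_right, norm_inv, hzR, inv_inv]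
          · rintro y ⟨hy1, hy2⟩
            rw [mem_closedBall, dist_zero_right] at hy1
            rw [mem_setOf_eq] at hy2
            have hy0 : 0 < ‖y‖ := (inv_pos.2 hR0).trans hy2
            refine ⟨?_, ?_⟩
            · rw [mem_closedBall, dist_zero_right, norm_inv]
              exact ((inv_lt_comm₀ hy0 hR0).2 hy2).le
            · rw [mem_ball, dist_zero_right, norm_inv, not_lt]
              exact (le_inv_comm₀ hr hy0).2 hy1
        · refine ContinuousWithinAt.comp (g := cau f R) (t := ball 0 R) ?_ hinv ?_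
          · refine hvR.continuousOn _ ?_
            rw [mem_ball, dist_zero_right, norm_inv, hzR, inv_inv]; exact hR
          · rintro y ⟨hy1, hy2⟩
            rw [mem_setOf_eq] at hy2
            have hy0 : 0 < ‖y‖ := (inv_pos.2 hR0).trans hy2
            rw [mem_ball, dist_zero_right, norm_inv]
            exact (inv_lt_comm₀ hy0 hR0).2 hy2
      have h2 : ContinuousWithinAt u (closedBall 0 r⁻¹ ∩ {x | R⁻¹ < ‖x‖}) z := by
        refine h1.congr ?_ (huo z (by rw [hzR]; exact hlt) hz)
        rintro y ⟨hy1, hy2⟩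
        exact huo y hy2 (by simpa using hy1)
      have h3 : {x : ℂ | R⁻¹ < ‖x‖} ∈ 𝓝 z := by
        refine (isOpen_lt continuous_const continuous_norm).mem_nhds ?_
        rw [mem_setOf_eq, hzR]; exact hlt
      exact (continuousWithinAt_inter h3).1 h2
  · simp only [hu, norm_zero, if_pos hri, zero_smul]
  · rintro z ⟨h1, h2⟩
    rw [mem_closedBall, dist_zero_right] at h1
    rw [mem_ball, dist_zero_right, not_lt] at h2
    rcases h2.lt_or_eq with h2 | h2
    · rw [hvo z h2 h1, hext z h2]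
      have h3 : ‖z⁻¹‖ < r⁻¹ := by rw [norm_inv]; exact inv_strictAnti₀ hr h2
      simp only [hu, if_pos h3]
      abel
    · have h3 : ‖z‖ < R := by rw [← h2]; exact hR
      have h4 : ¬ ‖z⁻¹‖ < r⁻¹ := by rw [norm_inv, ← h2]; exact lt_irrefl _
      simp only [hv, hu, if_pos h3, if_neg h4, inv_inv]
      abel

/-- Uniqueness in the Laurent splitting. -/
theorem ann_split_unique {r R : ℝ} (hr : 0 < r) (hR : r < R) {v u : ℂ → W}
    (hv : ContinuousOn v (closedBall 0 R)) (hv' : DifferentiableOn ℂ v (ball 0 R))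
    (hu : ContinuousOn u (closedBall 0 r⁻¹)) (hu' : DifferentiableOn ℂ u (ball 0 r⁻¹))
    (hu0 : u 0 = 0) (h : ∀ z ∈ closedBall 0 R \ ball 0 r, v z + u z⁻¹ = 0) :
    (∀ z ∈ closedBall 0 R, v z = 0) ∧ ∀ z ∈ closedBall 0 r⁻¹, u z = 0 := by
  have hR0 : 0 < R := hr.trans hR
  have hri : 0 < r⁻¹ := inv_pos.2 hr
  set F : ℂ → W := fun z => if ‖z‖ < R then v z else -u z⁻¹ with hF
  have hFi : ∀ z, ‖z‖ < R → F z = v z := fun z hz => by simp only [hF, if_pos hz]
  have hFo : ∀ z, r < ‖z‖ → F z = -u z⁻¹ := by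
    intro z hz
    by_cases hz' : ‖z‖ < R
    · rw [hFi z hz']
      have := h z ⟨by simpa using hz'.le, by simpa using hz.le⟩
      exact eq_neg_of_add_eq_zero_left this
    · simp only [hF, if_neg hz']
  have hFd : Differentiable ℂ F := by
    intro z
    by_cases hz : ‖z‖ < R
    · have h1 : DifferentiableAt ℂ v z := (hv' z (by simpa using hz)).differentiableAt
        (isOpen_ball.mem_nhds (by simpa using hz))
      refine h1.congr_of_eventuallyEq ?_
      filter_upwards [(isOpen_lt continuous_norm continuous_const).mem_nhds hz] with y hy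
      exact hFi y hy
    · have hz1 : r < ‖z‖ := lt_of_lt_of_le hR (not_lt.1 hz)
      have hz0 : z ≠ 0 := by
        intro h0; rw [h0, norm_zero] at hz1; exact absurd hz1 (not_lt.2 hr.le)
      have hmem : z⁻¹ ∈ ball (0 : ℂ) r⁻¹ := by
        rw [mem_ball, dist_zero_right, norm_inv]; exact inv_strictAnti₀ hr hz1
      have h1 : DifferentiableAt ℂ (fun z : ℂ => -u z⁻¹) z := by
        have h2 : DifferentiableAt ℂ u z⁻¹ := (hu' _ hmem).differentiableAt
          (isOpen_ball.mem_nhds hmem)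
        exact (h2.comp z (differentiableAt_inv hz0)).neg
      refine h1.congr_of_eventuallyEq ?_
      filter_upwards [(isOpen_lt continuous_const continuous_norm).mem_nhds hz1] with y hy
      exact hFo y hy
  have hlim : Tendsto F (cocompact ℂ) (𝓝 0) := by
    have h1 : Tendsto (fun z : ℂ => -u z⁻¹) (cocompact ℂ) (𝓝 (-u 0)) := by
      have h2 : ContinuousAt u 0 := (hu'.continuousOn).continuousAt
        (isOpen_ball.mem_nhds (mem_ball_self hri))
      have h4 : Tendsto (fun z : ℂ => z⁻¹) (cocompact ℂ) (𝓝 0) := by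
        rw [← Metric.cobounded_eq_cocompact]
        exact tendsto_inv₀_cobounded'.mono_right nhdsWithin_le_nhds
      exact (h2.tendsto.comp h4).neg
    rw [hu0, neg_zero] at h1
    refine h1.congr' ?_
    have h3 : {z : ℂ | r < ‖z‖} ∈ cocompact ℂ := by
      refine mem_cocompact.2 ⟨closedBall 0 r, isCompact_closedBall _ _, ?_⟩
      intro z hz
      simpa using hz
    filter_upwards [h3] with z hz
    exact (hFo z hz).symm
  have hF0 : ∀ z, F z = 0 := fun z => hFd.apply_eq_of_tendsto_cocompact z hlim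
  have hv0 : ∀ z ∈ ball (0 : ℂ) R, v z = 0 := by
    intro z hz
    rw [mem_ball, dist_zero_right] at hz
    rw [← hFi z hz, hF0]
  have hu00 : ∀ z ∈ ball (0 : ℂ) r⁻¹, u z = 0 := by
    intro z hz
    rw [mem_ball, dist_zero_right] at hz
    by_cases hz0 : z = 0
    · rw [hz0, hu0]
    · have h1 : r < ‖z⁻¹‖ := by
        rw [norm_inv]; exact (lt_inv_comm₀ hr (norm_pos_iff.2 hz0)).2 hz
      have h2 := hFo z⁻¹ h1
      rw [hF0, inv_inv] at h2
      exact neg_eq_zero.1 h2.symm
  have ext : ∀ (w : ℂ → W) (s : ℝ), 0 < s → ContinuousOn w (closedBall 0 s) →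
      (∀ z ∈ ball (0 : ℂ) s, w z = 0) → ∀ z ∈ closedBall (0 : ℂ) s, w z = 0 := by
    intro w s hs hw hw0 z hz
    have h1 : closure (ball (0 : ℂ) s) = closedBall 0 s := closure_ball _ hs.ne'
    have h2 : EqOn w (fun _ => 0) (closure (ball (0 : ℂ) s)) :=
      EqOn.of_subset_closure (s := ball (0 : ℂ) s) (fun y hy => hw0 y hy) (by rw [h1]; exact hw)
        continuousOn_const subset_closure subset_rfl
    rw [h1] at h2
    exact h2 hz
  exact ⟨ext v R hR0 hv hv0, ext u r⁻¹ hri hu hu00⟩

end Pool.Agent.Y288.VG
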