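import Mathlib
import Pool.Agent.Y261.VG.HS
import Pool.Agent.Y288.VG.Ann

set_option autoImplicit false
set_option linter.unusedSectionVars false

open Set Filter Topology Metric

namespace Pool.Agent.Y261.VG

open Pool.Agent.Y288.VG

section geom

lemma interior_Dsk {R : ℝ} (hR : 0 < R) : interior (Dsk R) = ball 0 R :=
  interior_closedBall _ hR.ne'

lemma interior_Anu {r R : ℝ} (hr : 0 < r) (hR : r < R) :
    interior (Anu r R) = ball 0 R \ closedBall 0 r := by
  rw [Anu, sdiff_eq, interior_inter, interior_closedBall _ (hr.trans hR).ne', interior_compl,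
    closure_ball _ hr.ne']
  rfl

lemma inv_mem_Dsk {r R : ℝ} (hr : 0 < r) {z : ℂ} (hz : z ∈ Anu r R) : z⁻¹ ∈ Dsk r⁻¹ := by
  have h1 : r ≤ ‖z‖ := by simpa [Anu] using hz.2
  rw [Dsk, mem_closedBall, dist_zero_right, norm_inv]
  exact inv_anti₀ hr h1

lemma ne_zero_of_mem_Anu {r R : ℝ} (hr : 0 < r) {z : ℂ} (hz : z ∈ Anu r R) : z ≠ 0 := by
  have h1 : r ≤ ‖z‖ := by simpa [Anu] using hz.2
  exact norm_pos_iff.1 (hr.trans_le h1)

end geom

section
variable {W : Type*} [NormedAddCommGroup W] [NormedSpace ℂ W]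

lemma CH.inv {r R : ℝ} (hr : 0 < r) (hR : r < R) {u : ℂ → W} (hu : CH (Dsk r⁻¹) u) :
    CH (Anu r R) (fun z => u z⁻¹) := by
  refine ⟨?_, ?_⟩
  · refine hu.1.comp (t := Dsk r⁻¹) (continuousOn_inv₀.mono ?_) fun z hz => inv_mem_Dsk hr hz
    intro z hz
    exact ne_zero_of_mem_Anu hr hz
  · rw [interior_Anu hr hR]
    have h1 := hu.2
    rw [interior_Dsk (inv_pos.2 hr)] at h1
    refine h1.comp ?_ ?_
    · intro z hz
      have hz' : z ≠ 0 := by
        rintro rfl
        exact hz.2 (by simpa using hr.le)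
      exact (differentiableAt_inv hz').differentiableWithinAt
    · intro z hz
      have h2 : r < ‖z‖ := by simpa using hz.2
      rw [mem_ball, dist_zero_right, norm_inv]
      exact inv_strictAnti₀ hr h2

lemma CH.add {K : Set ℂ} {f g : ℂ → W} (hf : CH K f) (hg : CH K g) : CH K (fun z => f z + g z) :=
  ⟨hf.1.add hg.1, hf.2.add hg.2⟩

lemma CH.sub {K : Set ℂ} {f g : ℂ → W} (hf : CH K f) (hg : CH K g) : CH K (fun z => f z - g z) :=
  ⟨hf.1.sub hg.1, hf.2.sub hg.2⟩

lemma CH.const {K : Set ℂ} (a : W) : CH K (fun _ => a) :=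
  ⟨continuousOn_const, differentiableOn_const _⟩

lemma CH.smul {K : Set ℂ} {φ : ℂ → ℂ} {f : ℂ → W} (hφ : CH K φ) (hf : CH K f) :
    CH K (fun z => φ z • f z) :=
  ⟨hφ.1.smul hf.1, hφ.2.smul hf.2⟩

lemma CH.id {K : Set ℂ} : CH K (fun z : ℂ => z) := ⟨continuousOn_id, differentiableOn_id⟩

lemma CH.pow {K : Set ℂ} {φ : ℂ → ℂ} (hφ : CH K φ) (n : ℕ) : CH K (fun z => φ z ^ n) :=
  ⟨hφ.1.pow n, hφ.2.pow n⟩

lemma CH.inv' {r R : ℝ} (hr : 0 < r) (hR : r < R) : CH (Anu r R) (fun z : ℂ => z⁻¹) :=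
  CH.inv hr hR (u := fun z => z) CH.id

lemma CH.dslope [CompleteSpace W] {R : ℝ} (hR : 0 < R) {f : ℂ → W} (hf : CH (Dsk R) f) :
    CH (Dsk R) (dslope f 0) := by
  have h0 : ball (0 : ℂ) R ∈ 𝓝 (0 : ℂ) := ball_mem_nhds _ hR
  have h0' : Dsk R ∈ 𝓝 (0 : ℂ) := closedBall_mem_nhds _ hR
  have h1 := hf.2
  rw [interior_Dsk hR] at h1
  refine ⟨(continuousOn_dslope h0').2 ⟨hf.1, h1.differentiableAt h0⟩, ?_⟩
  rw [interior_Dsk hR]
  exact (Complex.differentiableOn_dslope h0).2 h1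

lemma mkS_congr {K : Set ℂ} {F G : ℂ → W} (hF : CH K F) (hG : CH K G)
    (h : ∀ x ∈ K, F x = G x) : mkS hF = mkS hG := by
  ext x
  exact h x x.2

/-- composition with the inversion -/
noncomputable def invS {r R : ℝ} (hr : 0 < r) (hR : r < R) :
    HS (Dsk r⁻¹) W →L[ℂ] HS (Anu r R) W :=
  LinearMap.mkContinuous
    { toFun := fun f => mkS (F := fun z => ext0 f.toC z⁻¹) (CH.inv hr hR f.ch)
      map_add' := fun f g => by
        ext x
        rw [HS.toC_add, mkS_apply, mkS_apply, mkS_apply, ext0_apply _ (inv_mem_Dsk hr x.2),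
          ext0_apply _ (inv_mem_Dsk hr x.2), ext0_apply _ (inv_mem_Dsk hr x.2), HS.toC_add]
      map_smul' := fun c f => by
        ext x
        rw [RingHom.id_apply, HS.toC_smul, mkS_apply, mkS_apply, ext0_apply _ (inv_mem_Dsk hr x.2),
          ext0_apply _ (inv_mem_Dsk hr x.2), HS.toC_smul] } 1 (fun f => by
        rw [one_mul, HS.norm_le (norm_nonneg _)]
        intro x
        change ‖ext0 f.toC _‖ ≤ _
        rw [ext0_apply _ (inv_mem_Dsk hr x.2)]
        exact f.norm_apply_le _)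

lemma invS_apply {r R : ℝ} (hr : 0 < r) (hR : r < R) (f : HS (Dsk r⁻¹) W) (x : Anu r R) :
    (invS hr hR f).toC x = f.toC ⟨(x : ℂ)⁻¹, inv_mem_Dsk hr x.2⟩ :=
  ext0_apply _ (inv_mem_Dsk hr x.2)

lemma zero_mem_Dsk {R : ℝ} (hR : 0 < R) : (0 : ℂ) ∈ Dsk R := by
  rw [Dsk, mem_closedBall, dist_self]; exact hR.le

/-- evaluation at `0` -/
noncomputable def ev0 {R : ℝ} (hR : 0 < R) : HS (Dsk R) W →L[ℂ] W :=
  LinearMap.mkContinuous
    { toFun := fun f => f.toC ⟨0, zero_mem_Dsk hR⟩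
      map_add' := fun f g => rfl
      map_smul' := fun c f => rfl } 1 (fun f => by
        rw [one_mul]; exact f.norm_apply_le _)

lemma ev0_apply {R : ℝ} (hR : 0 < R) (f : HS (Dsk R) W) : ev0 hR f = f.toC ⟨0, zero_mem_Dsk hR⟩ :=
  rfl

/-- The projection onto the disc part of the Laurent splitting. -/
theorem exists_p [CompleteSpace W] {r R : ℝ} (hr : 0 < r) (hR : r < R) :
    ∃ p : HS (Anu r R) W →L[ℂ] HS (Dsk R) W,
      ∀ (f : HS (Anu r R) W) (v u : ℂ → W) (hv : CH (Dsk R) v) (_ : CH (Dsk r⁻¹) u),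
        u 0 = 0 → (∀ x : Anu r R, f.toC x = v x + u (x : ℂ)⁻¹) → p f = mkS hv := by
  have hri : 0 < r⁻¹ := inv_pos.2 hr
  have hR0 : 0 < R := hr.trans hR
  let U₀ : Submodule ℂ (HS (Dsk r⁻¹) W) := (ev0 (W := W) hri).ker
  have hU₀c : IsClosed (U₀ : Set (HS (Dsk r⁻¹) W)) := (ev0 (W := W) hri).isClosed_ker
  have : CompleteSpace U₀ := hU₀c.completeSpace_coe
  let T : (HS (Dsk R) W × U₀) →L[ℂ] HS (Anu r R) W :=
    (restS (Anu_subset_Dsk r R)).coprod ((invS hr hR).comp U₀.subtypeL)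
  have hT : ∀ (v : HS (Dsk R) W) (u : U₀) (x : Anu r R), (T (v, u)).toC x =
      v.toC ⟨x, Anu_subset_Dsk r R x.2⟩ + (u : HS (Dsk r⁻¹) W).toC ⟨(x : ℂ)⁻¹, inv_mem_Dsk hr x.2⟩ := by
    intro v u x
    have : T (v, u) = restS (Anu_subset_Dsk r R) v + invS hr hR (u : HS (Dsk r⁻¹) W) := by
      simp [T]
    rw [this, HS.toC_add, restS_apply, invS_apply]
  have hinj : T.ker = ⊥ := by
    rw [LinearMap.ker_eq_bot']
    rintro ⟨v, u⟩ hvu
    have h1 : ∀ z ∈ closedBall (0 : ℂ) R \ ball 0 r, ext0 v.toC z +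
        ext0 (u : HS (Dsk r⁻¹) W).toC z⁻¹ = 0 := by
      intro z hz
      have h2 := hT v u ⟨z, hz⟩
      have h3 : T (v, u) = 0 := hvu
      rw [h3, HS.toC_zero] at h2
      rw [ext0_apply _ (Anu_subset_Dsk r R hz), ext0_apply _ (inv_mem_Dsk hr hz)]
      exact h2.symm
    have hu0 : ext0 (u : HS (Dsk r⁻¹) W).toC 0 = 0 := by
      rw [ext0_apply _ (zero_mem_Dsk hri)]
      exact u.2
    have h4 := v.ch.2
    rw [interior_Dsk hR0] at h4
    have h5 := (u : HS (Dsk r⁻¹) W).ch.2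
    rw [interior_Dsk hri] at h5
    have h6 := ann_split_unique hr hR v.ch.1 h4 (u : HS (Dsk r⁻¹) W).ch.1 h5 hu0 h1
    refine Prod.ext ?_ (Subtype.ext ?_)
    · ext x
      have := h6.1 x x.2
      rw [ext0_apply _ x.2] at this
      exact this
    · ext x
      have := h6.2 x x.2
      rw [ext0_apply _ x.2] at this
      exact this
  have key : ∀ (f : HS (Anu r R) W) (v u : ℂ → W) (hv : CH (Dsk R) v) (hu : CH (Dsk r⁻¹) u)
      (hu0 : u 0 = 0), (∀ x : Anu r R, f.toC x = v x + u (x : ℂ)⁻¹) →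
      f = T (mkS hv, ⟨mkS hu, hu0⟩) := by
    intro f v u hv hu hu0 h
    ext x
    rw [h, hT, mkS_apply, mkS_apply]
  have hsurj : T.range = ⊤ := by
    rw [LinearMap.range_eq_top]
    intro f
    have h4 := f.ch.2
    rw [interior_Anu hr hR] at h4
    obtain ⟨v, u, hv, hv', hu, hu', hu0, hf⟩ := ann_split hr hR f.ch.1 h4
    refine ⟨(mkS (F := v) ⟨hv, by rw [interior_Dsk hR0]; exact hv'⟩,
      ⟨mkS (F := u) ⟨hu, by rw [interior_Dsk hri]; exact hu'⟩, hu0⟩), ?_⟩
    refine (key f v u _ _ hu0 fun x => ?_).symm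
    rw [← hf x x.2, ext0_apply _ x.2]
  let E := ContinuousLinearEquiv.ofBijective T hinj hsurj
  refine ⟨(ContinuousLinearMap.fst ℂ (HS (Dsk R) W) U₀).comp
    (E.symm : HS (Anu r R) W →L[ℂ] (HS (Dsk R) W × U₀)), ?_⟩
  intro f v u hv hu hu0 h
  have h1 := key f v u hv hu hu0 h
  have h2 : E.symm f = (mkS hv, ⟨mkS hu, hu0⟩) := by
    rw [ContinuousLinearEquiv.symm_apply_eq]
    exact h1
  change (E.symm f).1 = _
  rw [h2]

end

section
variable {B H : Type*} [NormedAddCommGroup B] [NormedSpace ℂ B]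
  [NormedAddCommGroup H] [NormedSpace ℂ H]
  (ι : H →L[ℂ] B) (p : B →L[ℂ] H)

/-- the submodule of operators whose commutator with the projection has finite rank -/
def KKsub : Submodule ℂ (B →L[ℂ] B) where
  carrier := KK ι p
  zero_mem' := by
    change ((ι.comp p).comp (0 : B →L[ℂ] B) - (0 : B →L[ℂ] B).comp (ι.comp p)).toLinearMap.HasFiniteRange
    rw [ContinuousLinearMap.comp_zero, ContinuousLinearMap.zero_comp, sub_zero]
    exact LinearMap.HasFiniteRange.zero
  add_mem' {c d} hc hd := by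
    have h : (ι.comp p).comp (c + d) - (c + d).comp (ι.comp p) =
        ((ι.comp p).comp c - c.comp (ι.comp p)) + ((ι.comp p).comp d - d.comp (ι.comp p)) := by
      rw [ContinuousLinearMap.comp_add, ContinuousLinearMap.add_comp]; abel
    change ((ι.comp p).comp (c + d) - (c + d).comp (ι.comp p)).toLinearMap.HasFiniteRange
    rw [h]
    exact LinearMap.HasFiniteRange.add hc hd
  smul_mem' a c hc := by
    have h : (ι.comp p).comp (a • c) - (a • c).comp (ι.comp p) =
        a • ((ι.comp p).comp c - c.comp (ι.comp p)) := by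
      rw [ContinuousLinearMap.comp_smul, ContinuousLinearMap.smul_comp, smul_sub]
    change ((ι.comp p).comp (a • c) - (a • c).comp (ι.comp p)).toLinearMap.HasFiniteRange
    rw [h]
    exact LinearMap.HasFiniteRange.smul hc a

variable {ι p}

lemma KK_comp {c d : B →L[ℂ] B} (hc : c ∈ KK ι p) (hd : d ∈ KK ι p) : c.comp d ∈ KK ι p := by
  have h : (ι.comp p).comp (c.comp d) - (c.comp d).comp (ι.comp p) =
      ((ι.comp p).comp c - c.comp (ι.comp p)).comp d +
        c.comp ((ι.comp p).comp d - d.comp (ι.comp p)) := by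
    ext x
    simp
  change ((ι.comp p).comp (c.comp d) - (c.comp d).comp (ι.comp p)).toLinearMap.HasFiniteRange
  rw [h]
  exact LinearMap.HasFiniteRange.add (LinearMap.HasFiniteRange.comp_right hc _)
    (LinearMap.HasFiniteRange.comp_left hd _)

lemma KK_of_range {c : B →L[ℂ] B} {V : Type*} [AddCommGroup V] [Module ℂ V]
    [FiniteDimensional ℂ V] (L : V →ₗ[ℂ] B)
    (h : ∀ f, ∃ a, ι (p (c f)) - c (ι (p f)) = L a) : c ∈ KK ι p := by
  have hle : ((ι.comp p).comp c - c.comp (ι.comp p)).toLinearMap.range ≤ L.range := by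
    rintro _ ⟨f, rfl⟩
    obtain ⟨a, ha⟩ := h f
    exact ⟨a, ha.symm⟩
  have : FiniteDimensional ℂ L.range := inferInstance
  have h2 := Submodule.finiteDimensional_of_le hle
  exact LinearMap.hasFiniteRange_iff_range.2 (Module.Finite.iff_fg.1 h2)

end

section
variable {F : Type*} [NormedAddCommGroup F] [NormedSpace ℂ F] [FiniteDimensional ℂ F]

/-- a scalar function as a multiplication symbol -/
lemma CH.scal {K : Set ℂ} {φ : ℂ → ℂ} (hφ : CH K φ) (A : F →L[ℂ] F) :
    CH K (fun z => φ z • A) := hφ.smul (CH.const A)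

variable {r R : ℝ}

/-- powers of a symbol -/
lemma pow_mem {ι : HS (Dsk R) F →L[ℂ] HS (Anu r R) F} {p : HS (Anu r R) F →L[ℂ] HS (Dsk R) F}
    {φ : ℂ → ℂ} (hφ : CH (Anu r R) φ)
    (h1 : mulS (mkS (hφ.scal (1 : F →L[ℂ] F))) ∈ KK ι p)
    (h2 : ∀ A : F →L[ℂ] F, mulS (mkS (CH.const (K := Anu r R) A)) ∈ KK ι p)
    (n : ℕ) (A : F →L[ℂ] F) : mulS (mkS ((hφ.pow n).scal A)) ∈ KK ι p := by
  induction n with
  | zero =>
    have : mkS ((hφ.pow 0).scal A) = mkS (CH.const (K := Anu r R) A) :=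
      mkS_congr _ _ fun x _ => by rw [pow_zero, one_smul]
    rw [this]
    exact h2 A
  | succ n ih =>
    have : mulS (mkS ((hφ.pow (n + 1)).scal A)) =
        (mulS (mkS (hφ.scal (1 : F →L[ℂ] F)))).comp (mulS (mkS ((hφ.pow n).scal A))) := by
      ext f x
      rw [ContinuousLinearMap.comp_apply, mulS_apply, mulS_apply, mulS_apply, mkS_apply, mkS_apply,
        mkS_apply]
      simp only [smul_apply, one_apply_eq_self, pow_succ',
        mul_smul]
    rw [this]
    exact KK_comp h1 ih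

lemma toC_sum {K : Set ℂ} {W : Type*} [NormedAddCommGroup W] [NormedSpace ℂ W] [CompactSpace K]
    {α : Type*} (s : Finset α) (g : α → HS K W) (x : K) :
    (∑ i ∈ s, g i).toC x = ∑ i ∈ s, (g i).toC x := by
  classical
  induction s using Finset.induction_on with
  | empty => simp [HS.toC_zero]
  | insert a s ha ih => rw [Finset.sum_insert ha, Finset.sum_insert ha, HS.toC_add, ih]

/-- Taylor approximation -/
lemma taylor_mem {W : Type*} [NormedAddCommGroup W] [NormedSpace ℂ W] [CompleteSpace W]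
    {K : Set ℂ} [CompactSpace K] (S : Submodule ℂ (HS K W)) {φ : ℂ → ℂ} (hφ : CH K φ)
    {ρ ρ' : ℝ} (hρ0 : 0 ≤ ρ) (hρ : ρ < ρ') (hm : ∀ z ∈ K, ‖φ z‖ ≤ ρ)
    (h1 : ∀ (n : ℕ) (A : W), mkS ((hφ.pow n).smul (CH.const A)) ∈ S)
    {V : ℂ → W} (hV : ContinuousOn V (closedBall 0 ρ')) (hV' : DifferentiableOn ℂ V (ball 0 ρ'))
    (hVφ : CH K (fun z => V (φ z))) : mkS hVφ ∈ S.topologicalClosure := by
  have hρ'0 : 0 < ρ' := hρ0.trans_lt hρ
  obtain ⟨σ, hσ1, hσ2⟩ := exists_between hρ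
  have hσ0 : 0 < σ := hρ0.trans_lt hσ1
  lift ρ' to NNReal using hρ'0.le
  lift σ to NNReal using hσ0.le
  have hd : DiffContOnCl ℂ V (ball 0 ρ') :=
    ⟨hV', hV.mono closure_ball_subset_closedBall⟩
  have hps := hd.hasFPowerSeriesOnBall (by exact_mod_cast hρ'0)
  have hu := hps.tendstoUniformlyOn (r' := σ) (by exact_mod_cast hσ2)
  rw [Metric.tendstoUniformlyOn_iff] at hu
  rw [← SetLike.mem_coe, Submodule.topologicalClosure_coe, Metric.mem_closure_iff]
  intro ε hε
  obtain ⟨n, hn⟩ := (hu (ε / 2) (half_pos hε)).exists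
  set q := cauchyPowerSeries V 0 ρ' with hq
  refine ⟨∑ k ∈ Finset.range n, mkS ((hφ.pow k).smul (CH.const (q.coeff k))),
    S.sum_mem fun k _ => h1 k _, ?_⟩
  rw [dist_eq_norm]
  refine lt_of_le_of_lt ?_ (half_lt_self hε)
  rw [HS.norm_le (half_pos hε).le]
  intro x
  rw [HS.toC_sub, toC_sum, mkS_apply]
  have h3 := hn (φ x) (by
    rw [mem_ball, dist_zero_right]
    exact (hm x x.2).trans_lt hσ1)
  rw [zero_add, dist_eq_norm] at h3
  refine le_of_eq_of_le ?_ h3.le
  congr 2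
  rw [FormalMultilinearSeries.partialSum]
  refine Finset.sum_congr rfl fun k _ => ?_
  rw [mkS_apply, FormalMultilinearSeries.apply_eq_pow_smul_coeff]

theorem exists_proj {F : Type*} [NormedAddCommGroup F] [NormedSpace ℂ F] [FiniteDimensional ℂ F]
    {r R : ℝ} (hr : 0 < r) (hR : r < R) :
    ∃ p : HS (Anu r R) F →L[ℂ] HS (Dsk R) F,
      (∀ v, p (restS (Anu_subset_Dsk r R) v) = v) ∧
      ∀ (G : ℂ → (F →L[ℂ] F)) (U : Set ℂ) (_ : IsOpen U) (hU : Anu r R ⊆ U)
        (hG : DifferentiableOn ℂ G U),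
        mulS (mkS (CH_of_open hU hG)) ∈ closure (KK (restS (Anu_subset_Dsk r R)) p) := by
  have hri : 0 < r⁻¹ := inv_pos.2 hr
  have hR0 : 0 < R := hr.trans hR
  have hFc : CompleteSpace F := FiniteDimensional.complete ℂ F
  obtain ⟨p, hp⟩ := exists_p (W := F) hr hR
  set ι := restS (W := F) (Anu_subset_Dsk r R) with hι
  have hιa : ∀ (f : HS (Dsk R) F) (x : Anu r R), (ι f).toC x = f.toC ⟨x, Anu_subset_Dsk r R x.2⟩ :=
    fun f x => restS_apply _ f x
  have split : ∀ f : HS (Anu r R) F, ∃ (v u : ℂ → F) (hv : CH (Dsk R) v) (_ : CH (Dsk r⁻¹) u),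
      u 0 = 0 ∧ (∀ x : Anu r R, f.toC x = v x + u (x : ℂ)⁻¹) ∧ p f = mkS hv := by
    intro f
    have h4 := f.ch.2
    rw [interior_Anu hr hR] at h4
    obtain ⟨v, u, hv, hv', hu, hu', hu0, hf⟩ := ann_split hr hR f.ch.1 h4
    have h5 : CH (Dsk R) v := ⟨hv, by rw [interior_Dsk hR0]; exact hv'⟩
    have h6 : CH (Dsk r⁻¹) u := ⟨hu, by rw [interior_Dsk hri]; exact hu'⟩
    have h7 : ∀ x : Anu r R, f.toC x = v x + u (x : ℂ)⁻¹ := fun x => by
      rw [← hf x x.2, ext0_apply _ x.2]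
    exact ⟨v, u, h5, h6, hu0, h7, hp f v u h5 h6 hu0 h7⟩
  have hpι : ∀ v, p (ι v) = v := by
    intro v
    rw [hp (ι v) (ext0 v.toC) (fun _ => 0) v.ch (CH.const 0) rfl ?_]
    · ext x
      rw [mkS_apply, ext0_apply _ x.2]
    · intro x
      rw [hιa, ext0_apply _ (Anu_subset_Dsk r R x.2), add_zero]
  refine ⟨p, hpι, ?_⟩
  -- constants
  have hconst : ∀ A : F →L[ℂ] F, mulS (mkS (CH.const (K := Anu r R) A)) ∈ KK ι p := by
    intro A
    refine KK_of_range (0 : F →ₗ[ℂ] HS (Anu r R) F) fun f => ⟨0, ?_⟩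
    obtain ⟨v, u, hv, hu, hu0, hf, hpf⟩ := split f
    have hAv : CH (Dsk R) (fun z => A (v z)) := (CH.const A).clm_apply hv
    have hAu : CH (Dsk r⁻¹) (fun z => A (u z)) := (CH.const A).clm_apply hu
    have h2 := hp (mulS (mkS (CH.const (K := Anu r R) A)) f) _ _ hAv hAu
      (by simp only [hu0, map_zero]) (fun x => by
        rw [mulS_apply, mkS_apply, hf, map_add])
    rw [h2, hpf]
    ext x
    rw [HS.toC_sub, hιa, mulS_apply, hιa, mkS_apply, mkS_apply, mkS_apply]
    simp [HS.toC_zero]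
  -- multiplication by `z`
  have hz : mulS (mkS (CH.id.scal (1 : F →L[ℂ] F) (K := Anu r R))) ∈ KK ι p := by
    let L : F →ₗ[ℂ] HS (Anu r R) F :=
      { toFun := fun a => mkS (CH.const (K := Anu r R) a)
        map_add' := fun a b => rfl
        map_smul' := fun c a => rfl }
    refine KK_of_range L fun f => ?_
    obtain ⟨v, u, hv, hu, hu0, hf, hpf⟩ := split f
    set c : F := dslope u 0 0 with hc
    refine ⟨c, ?_⟩
    have h2 := hp (mulS (mkS (CH.id.scal (1 : F →L[ℂ] F))) f) _ _ ((CH.id.smul hv).add (CH.const c))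
      ((CH.dslope hri hu).sub (CH.const c)) (by simp only [hc, sub_self]) (fun x => by
        rw [mulS_apply, mkS_apply, hf]
        have hx0 : (x : ℂ) ≠ 0 := ne_zero_of_mem_Anu hr x.2
        have hx1 : (x : ℂ)⁻¹ ≠ 0 := inv_ne_zero hx0
        rw [dslope_of_ne _ hx1, slope_def_module, hu0, sub_zero, sub_zero, inv_inv]
        simp only [smul_apply, one_apply_eq_self, smul_add]
        abel)
    rw [h2, hpf]
    ext x
    rw [HS.toC_sub, hιa, mulS_apply, hιa, mkS_apply, mkS_apply, mkS_apply]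
    change _ = c
    simp
  -- multiplication by `1/z`
  have hzi : mulS (mkS ((CH.inv' hr hR).scal (1 : F →L[ℂ] F))) ∈ KK ι p := by
    let L : F →ₗ[ℂ] HS (Anu r R) F :=
      { toFun := fun a => mkS ((CH.inv' hr hR).smul (CH.const a))
        map_add' := fun a b => by
          ext x
          rw [HS.toC_add, mkS_apply, mkS_apply, mkS_apply, smul_add]
        map_smul' := fun c a => by
          ext x
          rw [HS.toC_smul, mkS_apply, mkS_apply, smul_comm]; rfl }
    refine KK_of_range L fun f => ?_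
    obtain ⟨v, u, hv, hu, hu0, hf, hpf⟩ := split f
    set c : F := v 0 with hc
    refine ⟨-c, ?_⟩
    have h2 := hp (mulS (mkS ((CH.inv' hr hR).scal (1 : F →L[ℂ] F))) f) _ _ (CH.dslope hR0 hv)
      ((CH.id.smul (CH.const c)).add (CH.id.smul hu)) (by simp only [zero_smul, add_zero])
      (fun x => by
        rw [mulS_apply, mkS_apply, hf]
        have hx0 : (x : ℂ) ≠ 0 := ne_zero_of_mem_Anu hr x.2
        rw [dslope_of_ne _ hx0, slope_def_module, sub_zero]
        simp only [smul_apply, one_apply_eq_self, smul_add,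
          smul_sub, ← hc]
        abel)
    rw [h2, hpf]
    ext x
    have hx0 : (x : ℂ) ≠ 0 := ne_zero_of_mem_Anu hr x.2
    rw [HS.toC_sub, hιa, mulS_apply, hιa, mkS_apply, mkS_apply, mkS_apply,
      dslope_of_ne _ hx0, slope_def_module, sub_zero]
    change _ = (x : ℂ)⁻¹ • (-c)
    simp only [smul_apply, one_apply_eq_self, smul_sub, smul_neg]
    abel
  -- density
  intro G U hUo hU hG
  have hKc : IsCompact (Anu r R) := (isCompact_closedBall _ _).diff isOpen_ball
  obtain ⟨δ, hδ, hδU⟩ := hKc.exists_cthickening_subset_open hUo hU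
  set r' : ℝ := r - min δ (r / 2) with hr'
  set R' : ℝ := R + δ with hR'
  have hm0 : 0 < min δ (r / 2) := lt_min hδ (half_pos hr)
  have hr'0 : 0 < r' := by
    have := min_le_right δ (r / 2)
    rw [hr']; linarith
  have hr'r : r' < r := by rw [hr']; linarith
  have hRR' : R < R' := by rw [hR']; linarith
  have hsub : Anu r' R' ⊆ U := by
    refine Subset.trans ?_ hδU
    intro z hz
    have hz0 : z ≠ 0 := ne_zero_of_mem_Anu hr'0 hz
    have hzn : 0 < ‖z‖ := norm_pos_iff.2 hz0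
    have h1 : r' ≤ ‖z‖ := by simpa [Anu] using hz.2
    have h2 : ‖z‖ ≤ R' := by simpa [Anu] using hz.1
    have main : ∀ s : ℝ, r ≤ s → s ≤ R → |‖z‖ - s| ≤ δ → z ∈ cthickening δ (Anu r R) := by
      intro s hs1 hs2 hs3
      have hs0 : 0 < s := hr.trans_le hs1
      have hns : ‖((s / ‖z‖ : ℝ) : ℂ) * z‖ = s := by
        rw [norm_mul, Complex.norm_real, Real.norm_of_nonneg (by positivity)]
        field_simp
      refine mem_cthickening_of_dist_le z (((s / ‖z‖ : ℝ) : ℂ) * z) δ _ ⟨?_, ?_⟩ ?_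
      · rw [mem_closedBall, dist_zero_right, hns]; exact hs2
      · rw [mem_ball, dist_zero_right, hns]; exact not_lt.2 hs1
      · rw [dist_eq_norm]
        have : z - ((s / ‖z‖ : ℝ) : ℂ) * z = (((‖z‖ - s) / ‖z‖ : ℝ) : ℂ) * z := by
          have : (‖z‖ - s) / ‖z‖ = 1 - s / ‖z‖ := by field_simp
          rw [this]; push_cast; ring
        rw [this, norm_mul, Complex.norm_real, Real.norm_eq_abs, abs_div, abs_of_pos hzn]
        rw [div_mul_cancel₀ _ hzn.ne']
        exact hs3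
    rcases lt_or_ge ‖z‖ r with h3 | h3
    · refine main r le_rfl hR.le ?_
      rw [abs_le]
      have := min_le_left δ (r / 2)
      constructor
      · rw [hr'] at h1; linarith
      · linarith
    · rcases le_or_gt ‖z‖ R with h4 | h4
      · exact main ‖z‖ h3 h4 (by rw [sub_self, abs_zero]; exact hδ.le)
      · refine main R hR.le le_rfl ?_
        rw [abs_le]
        constructor
        · linarith
        · rw [hR'] at h2; linarith
  have hGc : ContinuousOn G (closedBall 0 R' \ ball 0 r') := hG.continuousOn.mono hsub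
  have hGd : DifferentiableOn ℂ G (ball 0 R' \ closedBall 0 r') :=
    hG.mono (Subset.trans (sdiff_subset_sdiff ball_subset_closedBall ball_subset_closedBall) hsub)
  obtain ⟨V, Q, hV, hV', hQ, hQ', hQ0, hVQ⟩ := ann_split hr'0 (hr'r.trans (hR.trans hRR')) hGc hGd
  set S : Submodule ℂ (HS (Anu r R) (F →L[ℂ] F)) :=
    (KKsub ι p).comap (mulS (K := Anu r R) (F := F)).toLinearMap with hS
  have hVD : CH (Dsk R) V := by
    refine ⟨hV.mono (closedBall_subset_closedBall hRR'.le), ?_⟩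
    rw [interior_Dsk hR0]; exact hV'.mono (ball_subset_ball hRR'.le)
  have hinvlt : r⁻¹ < r'⁻¹ := inv_strictAnti₀ hr'0 hr'r
  have hQD : CH (Dsk r⁻¹) Q := by
    refine ⟨hQ.mono (closedBall_subset_closedBall hinvlt.le), ?_⟩
    rw [interior_Dsk hri]; exact hQ'.mono (ball_subset_ball hinvlt.le)
  have m1 : mkS (hVD.mono (Anu_subset_Dsk r R)) ∈ S.topologicalClosure := by
    refine taylor_mem S (φ := fun z => z) CH.id hR0.le hRR' ?_ ?_ hV hV' _
    · intro z hz
      simpa [Anu] using hz.1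
    · intro n A
      exact pow_mem CH.id hz hconst n A
  have m2 : mkS (CH.inv hr hR hQD) ∈ S.topologicalClosure := by
    refine taylor_mem S (φ := fun z => z⁻¹) (CH.inv' hr hR) hri.le hinvlt ?_ ?_ hQ hQ' _
    · intro z hz
      have := inv_mem_Dsk hr hz
      rwa [Dsk, mem_closedBall, dist_zero_right] at this
    · intro n A
      exact pow_mem (CH.inv' hr hR) hzi hconst n A
  have m3 : mkS (CH_of_open hU hG) ∈ S.topologicalClosure := by
    have e : mkS (CH_of_open hU hG) = mkS (hVD.mono (Anu_subset_Dsk r R)) +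
        mkS (CH.inv hr hR hQD) := by
      ext x : 1
      rw [HS.toC_add, mkS_apply, mkS_apply, mkS_apply]
      refine hVQ x ⟨?_, ?_⟩
      · exact closedBall_subset_closedBall hRR'.le x.2.1
      · exact fun h => x.2.2 (ball_subset_ball hr'r.le h)
    rw [e]
    exact Submodule.add_mem _ m1 m2
  have m4 : mkS (CH_of_open hU hG) ∈ closure (S : Set (HS (Anu r R) (F →L[ℂ] F))) := by
    rw [← Submodule.topologicalClosure_coe]; exact m3
  exact map_mem_closure (mulS (K := Anu r R) (F := F)).continuous m4 fun g hg => hg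

end

end Pool.Agent.Y261.VG
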