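import Mathlib

set_option autoImplicit false

open Complex Set Metric Filter Topology MeasureTheory
open scoped Real Interval

namespace Pool.Agent.Y288.VG

variable {W : Type*} [NormedAddCommGroup W] [NormedSpace ℂ W]

/-- the boundary integral over a rectangle -/
noncomputable def Bd (α β γ δ : ℝ) (g : ℂ → W) : W :=
  (∫ t : ℝ in α..β, g (t + γ * I)) - (∫ t : ℝ in α..β, g (t + δ * I)) +
    I • (∫ y : ℝ in γ..δ, g (β + y * I)) - I • ∫ y : ℝ in γ..δ, g (α + y * I)

/-- the boundary of a rectangle -/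
def bdry (α β γ δ : ℝ) : Set ℂ :=
  {z | (z.re ∈ Icc α β ∧ (z.im = γ ∨ z.im = δ)) ∨ (z.im ∈ Icc γ δ ∧ (z.re = β ∨ z.re = α))}

variable {α β γ δ : ℝ}

theorem bdry_sub (h : α ≤ β) (h' : γ ≤ δ) : bdry α β γ δ ⊆ Icc α β ×ℂ Icc γ δ := by
  intro z hz
  rw [mem_reProdIm]
  rcases hz with ⟨h1, h2⟩ | ⟨h1, h2⟩
  · refine ⟨h1, ?_⟩
    rcases h2 with h2 | h2 <;> rw [h2]
    · exact ⟨le_rfl, h'⟩
    · exact ⟨h', le_rfl⟩
  · refine ⟨?_, h1⟩
    rcases h2 with h2 | h2 <;> rw [h2]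
    · exact ⟨h, le_rfl⟩
    · exact ⟨le_rfl, h⟩

theorem bdry_ne {z x : ℂ} (hz : z ∈ bdry α β γ δ) (hx : x ∈ Ioo α β ×ℂ Ioo γ δ) : z ≠ x := by
  rintro rfl
  rw [mem_reProdIm] at hx
  obtain ⟨⟨h1, h2⟩, h3, h4⟩ := hx
  rcases hz with ⟨-, h5 | h5⟩ | ⟨-, h5 | h5⟩ <;> linarith

omit [NormedSpace ℂ W] in
theorem side1 (h : α ≤ β) {g : ℂ → W} (hg : ContinuousOn g (bdry α β γ δ)) :
    ContinuousOn (fun t : ℝ => g (t + γ * I)) (uIcc α β) := by
  refine hg.comp (by fun_prop) fun t ht => ?_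
  rw [uIcc_of_le h] at ht
  exact Or.inl ⟨by simpa using ht, Or.inl (by simp)⟩

omit [NormedSpace ℂ W] in
theorem side2 (h : α ≤ β) {g : ℂ → W} (hg : ContinuousOn g (bdry α β γ δ)) :
    ContinuousOn (fun t : ℝ => g (t + δ * I)) (uIcc α β) := by
  refine hg.comp (by fun_prop) fun t ht => ?_
  rw [uIcc_of_le h] at ht
  exact Or.inl ⟨by simpa using ht, Or.inr (by simp)⟩

omit [NormedSpace ℂ W] in
theorem side3 (h' : γ ≤ δ) {g : ℂ → W} (hg : ContinuousOn g (bdry α β γ δ)) :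
    ContinuousOn (fun t : ℝ => g (β + t * I)) (uIcc γ δ) := by
  refine hg.comp (by fun_prop) fun t ht => ?_
  rw [uIcc_of_le h'] at ht
  exact Or.inr ⟨by simpa using ht, Or.inl (by simp)⟩

omit [NormedSpace ℂ W] in
theorem side4 (h' : γ ≤ δ) {g : ℂ → W} (hg : ContinuousOn g (bdry α β γ δ)) :
    ContinuousOn (fun t : ℝ => g (α + t * I)) (uIcc γ δ) := by
  refine hg.comp (by fun_prop) fun t ht => ?_
  rw [uIcc_of_le h'] at ht
  exact Or.inr ⟨by simpa using ht, Or.inr (by simp)⟩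

theorem Bd_sub (h : α ≤ β) (h' : γ ≤ δ) {g₁ g₂ : ℂ → W} (hg₁ : ContinuousOn g₁ (bdry α β γ δ))
    (hg₂ : ContinuousOn g₂ (bdry α β γ δ)) :
    Bd α β γ δ (fun z => g₁ z - g₂ z) = Bd α β γ δ g₁ - Bd α β γ δ g₂ := by
  unfold Bd
  rw [intervalIntegral.integral_sub (side1 h hg₁).intervalIntegrable
      (side1 h hg₂).intervalIntegrable,
    intervalIntegral.integral_sub (side2 h hg₁).intervalIntegrable
      (side2 h hg₂).intervalIntegrable,
    intervalIntegral.integral_sub (side3 h' hg₁).intervalIntegrable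
      (side3 h' hg₂).intervalIntegrable,
    intervalIntegral.integral_sub (side4 h' hg₁).intervalIntegrable
      (side4 h' hg₂).intervalIntegrable, smul_sub, smul_sub]
  abel

theorem Bd_smul (c : ℂ) (g : ℂ → W) : Bd α β γ δ (fun z => c • g z) = c • Bd α β γ δ g := by
  unfold Bd
  simp only [intervalIntegral.integral_smul, smul_add, smul_sub]
  rw [smul_comm I c, smul_comm I c]

theorem Bd_smul_const [CompleteSpace W] (g : ℂ → ℂ) (w : W) :
    Bd α β γ δ (fun z => g z • w) = Bd α β γ δ g • w := by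
  unfold Bd
  simp only [intervalIntegral.integral_smul_const, sub_smul, add_smul, smul_assoc]

theorem Bd_congr (h : α ≤ β) (h' : γ ≤ δ) {g₁ g₂ : ℂ → W}
    (hg : ∀ z ∈ bdry α β γ δ, g₁ z = g₂ z) : Bd α β γ δ g₁ = Bd α β γ δ g₂ := by
  unfold Bd
  have e1 : (∫ t : ℝ in α..β, g₁ (t + γ * I)) = ∫ t : ℝ in α..β, g₂ (t + γ * I) := by
    refine intervalIntegral.integral_congr fun t ht => hg _ ?_
    rw [uIcc_of_le h] at ht
    exact Or.inl ⟨by simpa using ht, Or.inl (by simp)⟩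
  have e2 : (∫ t : ℝ in α..β, g₁ (t + δ * I)) = ∫ t : ℝ in α..β, g₂ (t + δ * I) := by
    refine intervalIntegral.integral_congr fun t ht => hg _ ?_
    rw [uIcc_of_le h] at ht
    exact Or.inl ⟨by simpa using ht, Or.inr (by simp)⟩
  have e3 : (∫ t : ℝ in γ..δ, g₁ (β + t * I)) = ∫ t : ℝ in γ..δ, g₂ (β + t * I) := by
    refine intervalIntegral.integral_congr fun t ht => hg _ ?_
    rw [uIcc_of_le h'] at ht
    exact Or.inr ⟨by simpa using ht, Or.inl (by simp)⟩
  have e4 : (∫ t : ℝ in γ..δ, g₁ (α + t * I)) = ∫ t : ℝ in γ..δ, g₂ (α + t * I) := by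
    refine intervalIntegral.integral_congr fun t ht => hg _ ?_
    rw [uIcc_of_le h'] at ht
    exact Or.inr ⟨by simpa using ht, Or.inr (by simp)⟩
  rw [e1, e2, e3, e4]

theorem log_neg_pos {w : ℂ} (h : 0 < w.im) : Complex.log (-w) = Complex.log w - π * I := by
  rw [Complex.log, Complex.log, arg_neg_eq_arg_sub_pi_of_im_pos h, norm_neg]
  push_cast
  ring

theorem log_neg_neg {w : ℂ} (h : w.im < 0) : Complex.log (-w) = Complex.log w + π * I := by
  rw [Complex.log, Complex.log, arg_neg_eq_arg_add_pi_of_im_neg h, norm_neg]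
  push_cast
  ring

theorem ftc_h {p : ℂ} (hp : p.im ≠ 0) (α β : ℝ) :
    (∫ t : ℝ in α..β, ((t : ℂ) + p)⁻¹) = Complex.log (β + p) - Complex.log (α + p) := by
  have hd : ∀ t : ℝ, HasDerivAt (fun t : ℝ => Complex.log (t + p)) (((t : ℂ) + p)⁻¹) t := by
    intro t
    have h1 : HasDerivAt (fun t : ℝ => (t : ℂ) + p) 1 t :=
      (Complex.ofRealCLM.hasDerivAt (x := t)).add_const p
    have h2 := (Complex.hasDerivAt_log (z := (t : ℂ) + p)
      (Or.inr (by simpa using hp))).comp_of_eq t h1 rfl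
    rw [mul_one] at h2
    exact h2
  have hc : Continuous (fun t : ℝ => ((t : ℂ) + p)⁻¹) := by
    refine Continuous.inv₀ (by fun_prop) fun t h0 => ?_
    have := congrArg Complex.im h0
    simp at this
    exact hp this
  exact intervalIntegral.integral_eq_sub_of_hasDerivAt (fun t _ => hd t) (hc.intervalIntegrable _ _)

theorem ftc_v {p : ℂ} (hp : 0 < p.re) (γ δ : ℝ) :
    I * (∫ t : ℝ in γ..δ, (p + (t : ℂ) * I)⁻¹) =
      Complex.log (p + δ * I) - Complex.log (p + γ * I) := by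
  have hd : ∀ t : ℝ, HasDerivAt (fun t : ℝ => Complex.log (p + t * I))
      (I * (p + (t : ℂ) * I)⁻¹) t := by
    intro t
    have h1 : HasDerivAt (fun t : ℝ => p + (t : ℂ) * I) I t := by
      have := ((Complex.ofRealCLM.hasDerivAt (x := t)).mul_const I).const_add p
      simpa using this
    have h2 := (Complex.hasDerivAt_log (z := p + (t : ℂ) * I)
      (Or.inl (by simpa using hp))).comp_of_eq t h1 rfl
    rw [mul_comm]
    exact h2
  have hc : Continuous (fun t : ℝ => I * (p + (t : ℂ) * I)⁻¹) := by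
    refine continuous_const.mul (Continuous.inv₀ (by fun_prop) fun t h0 => ?_)
    have := congrArg Complex.re h0
    simp at this
    exact hp.ne' this
  rw [← intervalIntegral.integral_const_mul]
  exact intervalIntegral.integral_eq_sub_of_hasDerivAt (fun t _ => hd t) (hc.intervalIntegrable _ _)

theorem bd_inv {x : ℂ} (hx : x ∈ Ioo α β ×ℂ Ioo γ δ) :
    Bd α β γ δ (fun z => (z - x)⁻¹) = 2 * π * I := by
  rw [mem_reProdIm] at hx
  obtain ⟨⟨h1, h2⟩, h3, h4⟩ := hx
  have e1 : (∫ t : ℝ in α..β, (((t : ℂ) + γ * I) - x)⁻¹) =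
      Complex.log (β + (γ * I - x)) - Complex.log (α + (γ * I - x)) := by
    rw [← ftc_h (p := γ * I - x) (by simp; linarith)]
    congr 1; ext t; congr 1; ring
  have e2 : (∫ t : ℝ in α..β, (((t : ℂ) + δ * I) - x)⁻¹) =
      Complex.log (β + (δ * I - x)) - Complex.log (α + (δ * I - x)) := by
    rw [← ftc_h (p := δ * I - x) (by simp; linarith)]
    congr 1; ext t; congr 1; ring
  have e3 : I * (∫ t : ℝ in γ..δ, (((β : ℂ) + t * I) - x)⁻¹) =
      Complex.log ((β - x) + δ * I) - Complex.log ((β - x) + γ * I) := by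
    rw [← ftc_v (p := β - x) (by simp; linarith)]
    congr 2; ext t; congr 1; ring
  have e4 : I * (∫ t : ℝ in γ..δ, (((α : ℂ) + t * I) - x)⁻¹) =
      Complex.log ((x - α) + (-δ : ℝ) * I) - Complex.log ((x - α) + (-γ : ℝ) * I) := by
    rw [← ftc_v (p := x - α) (by simp; linarith) (-γ) (-δ)]
    have : (∫ t : ℝ in γ..δ, (((α : ℂ) + t * I) - x)⁻¹) =
        ∫ t : ℝ in (-γ)..(-δ), (x - α + (t : ℂ) * I)⁻¹ := by
      have h5 := intervalIntegral.integral_comp_neg (a := γ) (b := δ)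
        (fun t : ℝ => (x - α + (t : ℂ) * I)⁻¹)
      rw [intervalIntegral.integral_symm (-δ) (-γ), ← h5, ← intervalIntegral.integral_neg]
      congr 1; ext t
      rw [← inv_neg]
      congr 1
      push_cast
      ring
    rw [this]
  unfold Bd
  simp only [smul_eq_mul]
  rw [e1, e2, e3, e4]
  have l1 : Complex.log (α + (δ * I - x)) = Complex.log ((x - α) + (-δ : ℝ) * I) + π * I := by
    rw [← log_neg_neg (w := (x - α) + (-δ : ℝ) * I) (by simp; linarith)]
    congr 1; push_cast; ring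
  have l2 : Complex.log (α + (γ * I - x)) = Complex.log ((x - α) + (-γ : ℝ) * I) - π * I := by
    rw [← log_neg_pos (w := (x - α) + (-γ : ℝ) * I) (by simp; linarith)]
    congr 1; push_cast; ring
  rw [l1, l2]
  have e5 : (β : ℂ) + (γ * I - x) = (β - x) + γ * I := by ring
  have e6 : (β : ℂ) + (δ * I - x) = (β - x) + δ * I := by ring
  rw [e5, e6]
  ring

variable [CompleteSpace W]

/-- Cauchy formula on a rectangle. -/
theorem cauchy_rect (h : α ≤ β) (h' : γ ≤ δ) {f : ℂ → W}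
    (hc : ContinuousOn f (Icc α β ×ℂ Icc γ δ))
    (hd : DifferentiableOn ℂ f (Ioo α β ×ℂ Ioo γ δ)) {x : ℂ} (hx : x ∈ Ioo α β ×ℂ Ioo γ δ) :
    Bd α β γ δ (fun z => (z - x)⁻¹ • f z) = (2 * π * I : ℂ) • f x := by
  have hopen : IsOpen (Ioo α β ×ℂ Ioo γ δ) := isOpen_Ioo.reProdIm isOpen_Ioo
  have hsub : Ioo α β ×ℂ Ioo γ δ ⊆ Icc α β ×ℂ Icc γ δ :=
    reProdIm_subset_iff.2 (prod_mono Ioo_subset_Icc_self Ioo_subset_Icc_self)
  have hdx : DifferentiableAt ℂ f x := (hd x hx).differentiableAt (hopen.mem_nhds hx)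
  have hcF : ContinuousOn (dslope f x) (Icc α β ×ℂ Icc γ δ) :=
    (continuousOn_dslope (mem_of_superset (hopen.mem_nhds hx) hsub)).2 ⟨hc, hdx⟩
  have HI := integral_boundary_rect_eq_zero_of_differentiable_on_off_countable (dslope f x)
    (⟨α, γ⟩ : ℂ) (⟨β, δ⟩ : ℂ) {x} (countable_singleton x) (by
      simp only [uIcc_of_le h, uIcc_of_le h']; exact hcF) (by
      simp only [min_eq_left h, min_eq_left h', max_eq_right h, max_eq_right h']
      rintro z ⟨hz, hzx⟩
      exact (differentiableAt_dslope_of_ne hzx).2 ((hd z hz).differentiableAt (hopen.mem_nhds hz)))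
  have HI' : Bd α β γ δ (dslope f x) = 0 := HI
  have hcb : ContinuousOn f (bdry α β γ δ) := hc.mono (bdry_sub h h')
  have hinv : ContinuousOn (fun z => (z - x)⁻¹) (bdry α β γ δ) :=
    (continuousOn_id.sub continuousOn_const).inv₀ fun z hz => sub_ne_zero.2 (bdry_ne hz hx)
  have e1 : Bd α β γ δ (dslope f x) =
      Bd α β γ δ (fun z => (z - x)⁻¹ • f z - (z - x)⁻¹ • f x) := by
    refine Bd_congr h h' fun z hz => ?_
    rw [dslope_of_ne _ (bdry_ne hz hx), slope_def_module, smul_sub]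
  have i1 : ContinuousOn (fun z => (z - x)⁻¹ • f z) (bdry α β γ δ) := hinv.smul hcb
  have i2 : ContinuousOn (fun z => (z - x)⁻¹ • f x) (bdry α β γ δ) := hinv.smul continuousOn_const
  rw [e1, Bd_sub h h' i1 i2, Bd_smul_const, bd_inv hx, sub_eq_zero] at HI'
  exact HI'

end Pool.Agent.Y288.VG
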