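import Pool.Agent.Y288.VG.RectA

set_option autoImplicit false

open Complex Set Metric Filter Topology MeasureTheory
open scoped Real Interval

namespace Pool.Agent.Y288.VG

variable {W : Type*} [NormedAddCommGroup W] [NormedSpace ℂ W] [CompleteSpace W]

/-- holomorphic dependence on a parameter -/
theorem param_diff {U : Set ℂ} (hU : IsOpen U) {Φ Φ' : ℂ → ℝ → W} {s0 s1 : ℝ}
    (hΦ : ContinuousOn (fun q : ℂ × ℝ => Φ q.1 q.2) (U ×ˢ uIcc s0 s1))
    (hΦ' : ContinuousOn (fun q : ℂ × ℝ => Φ' q.1 q.2) (U ×ˢ uIcc s0 s1))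
    (hd : ∀ x ∈ U, ∀ t ∈ uIcc s0 s1, HasDerivAt (fun x => Φ x t) (Φ' x t) x) :
    DifferentiableOn ℂ (fun x => ∫ t in s0..s1, Φ x t) U := by
  intro x hx
  obtain ⟨ε, hε, hball⟩ := Metric.isOpen_iff.1 hU x hx
  have hK : closedBall x (ε / 2) ⊆ U := (closedBall_subset_ball (by linarith)).trans hball
  have hcomp : IsCompact (closedBall x (ε / 2) ×ˢ uIcc s0 s1) :=
    (isCompact_closedBall _ _).prod isCompact_uIcc
  obtain ⟨M, hM⟩ := hcomp.exists_bound_of_continuousOn (hΦ'.mono (prod_mono hK subset_rfl))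
  have hsec : ∀ y ∈ U, ContinuousOn (Φ y) (uIcc s0 s1) := by
    intro y hy
    exact hΦ.comp (f := fun t : ℝ => (y, t)) (by fun_prop) fun t ht => ⟨hy, ht⟩
  have hsec' : ∀ y ∈ U, ContinuousOn (Φ' y) (uIcc s0 s1) := by
    intro y hy
    exact hΦ'.comp (f := fun t : ℝ => (y, t)) (by fun_prop) fun t ht => ⟨hy, ht⟩
  have hmeas : ∀ g : ℝ → W, ContinuousOn g (uIcc s0 s1) →
      AEStronglyMeasurable g (volume.restrict (Ι s0 s1)) := fun g hg =>
    (hg.aestronglyMeasurable measurableSet_uIcc).mono_measure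
      (Measure.restrict_mono uIoc_subset_uIcc le_rfl)
  have key := intervalIntegral.hasDerivAt_integral_of_dominated_loc_of_deriv_le
    (μ := volume) (F := Φ) (F' := Φ') (x₀ := x) (s := ball x (ε / 2)) (a := s0) (b := s1)
    (bound := fun _ => M) (ball_mem_nhds x (by linarith)) ?_ ?_ ?_ ?_ ?_ ?_
  · exact key.2.differentiableAt.differentiableWithinAt
  · filter_upwards [hU.mem_nhds hx] with y hy
    exact hmeas _ (hsec y hy)
  · exact (hsec x hx).intervalIntegrable
  · exact hmeas _ (hsec' x hx)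
  · refine Eventually.of_forall fun t ht y hy => ?_
    exact hM (y, t) ⟨ball_subset_closedBall hy, uIoc_subset_uIcc ht⟩
  · exact intervalIntegrable_const
  · refine Eventually.of_forall fun t ht y hy => ?_
    exact hd y (hK (ball_subset_closedBall hy)) t (uIoc_subset_uIcc ht)

/-- the Cauchy integral over a path is holomorphic off the path -/
theorem side_diff {ζ : ℝ → ℂ} (hζ : Continuous ζ) {s0 s1 : ℝ} {h : ℝ → W}
    (hh : ContinuousOn h (uIcc s0 s1)) :
    DifferentiableOn ℂ (fun x => ∫ t in s0..s1, (ζ t - x)⁻¹ • h t)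
      {x | ∀ t ∈ uIcc s0 s1, ζ t ≠ x} := by
  have hU : IsOpen {x | ∀ t ∈ uIcc s0 s1, ζ t ≠ x} := by
    have : {x | ∀ t ∈ uIcc s0 s1, ζ t ≠ x} = (ζ '' uIcc s0 s1)ᶜ := by
      ext x; simp
    rw [this]
    exact (isCompact_uIcc.image hζ).isClosed.isOpen_compl
  have hne : ∀ q ∈ {x | ∀ t ∈ uIcc s0 s1, ζ t ≠ x} ×ˢ uIcc s0 s1, ζ q.2 - q.1 ≠ 0 := by
    rintro ⟨x, t⟩ ⟨h1, h2⟩
    exact sub_ne_zero.2 (h1 t h2)
  have hc1 : ContinuousOn (fun q : ℂ × ℝ => ζ q.2 - q.1)
      ({x | ∀ t ∈ uIcc s0 s1, ζ t ≠ x} ×ˢ uIcc s0 s1) := by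
    fun_prop
  have hc2 : ContinuousOn (fun q : ℂ × ℝ => h q.2)
      ({x | ∀ t ∈ uIcc s0 s1, ζ t ≠ x} ×ˢ uIcc s0 s1) :=
    hh.comp (by fun_prop) fun q hq => hq.2
  refine param_diff (Φ := fun x t => (ζ t - x)⁻¹ • h t)
    (Φ' := fun x t => ((ζ t - x) ^ 2)⁻¹ • h t) hU ?_ ?_ ?_
  · exact (hc1.inv₀ hne).smul hc2
  · exact ((hc1.pow 2).inv₀ fun q hq => pow_ne_zero 2 (hne q hq)).smul hc2
  · intro x hx t ht
    have h1 : HasDerivAt (fun x => (ζ t - x)⁻¹) (((ζ t - x) ^ 2)⁻¹) x := by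
      have := ((hasDerivAt_id x).const_sub (ζ t)).fun_inv (sub_ne_zero.2 (hx t ht))
      refine this.congr_deriv ?_
      simp
    exact h1.smul_const (h t)

/-- convolution with an entire kernel -/
theorem side_entire {ζ : ℝ → ℂ} (hζ : Continuous ζ) {s0 s1 : ℝ} {h : ℝ → W}
    (hh : ContinuousOn h (uIcc s0 s1)) {E : ℂ → ℂ} (hE : Differentiable ℂ E) :
    Differentiable ℂ (fun x => ∫ t in s0..s1, E (ζ t - x) • h t) := by
  have hE' : Continuous (deriv E) := (hE.contDiff (n := 1)).continuous_deriv (by simp)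
  have hc2 : ContinuousOn (fun q : ℂ × ℝ => h q.2) (univ ×ˢ uIcc s0 s1) :=
    hh.comp (by fun_prop) fun q hq => hq.2
  have := param_diff (U := univ) (Φ := fun x t => E (ζ t - x) • h t)
    (Φ' := fun x t => (-deriv E (ζ t - x)) • h t) (s0 := s0) (s1 := s1) isOpen_univ ?_ ?_ ?_
  · exact differentiableOn_univ.1 this
  · refine ContinuousOn.smul ?_ hc2
    exact (hE.continuous.comp (by fun_prop)).continuousOn
  · refine ContinuousOn.smul ?_ hc2
    exact (hE'.comp (by fun_prop)).neg.continuousOn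
  · intro x _ t _
    have h1 : HasDerivAt (fun x => E (ζ t - x)) (-deriv E (ζ t - x)) x := by
      have := (hE (ζ t - x)).hasDerivAt.comp x ((hasDerivAt_id x).const_sub (ζ t))
      refine this.congr_deriv ?_
      simp
    exact h1.smul_const (h t)

omit [CompleteSpace W] in
/-- the commutator integral is continuous -/
theorem side_cont {ζ : ℝ → ℂ} (hζ : Continuous ζ) (hinj : Function.Injective ζ) {s0 s1 : ℝ}
    {h : ℝ → W} (hh : ContinuousOn h (uIcc s0 s1)) {χ : ℂ → ℂ} {C : ℝ} (hC : 0 ≤ C)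
    (hχ : ∀ z x, ‖χ z - χ x‖ ≤ C * ‖z - x‖) (hχc : Continuous χ) :
    Continuous (fun x => ∫ t in s0..s1, ((χ (ζ t) - χ x) / (ζ t - x)) • h t) := by
  rw [continuous_iff_continuousAt]
  intro x
  obtain ⟨M, hM⟩ := isCompact_uIcc.exists_bound_of_continuousOn hh
  have hhm : AEStronglyMeasurable h (volume.restrict (Ι s0 s1)) :=
    (hh.aestronglyMeasurable measurableSet_uIcc).mono_measure
      (Measure.restrict_mono uIoc_subset_uIcc le_rfl)
  refine intervalIntegral.continuousAt_of_dominated_interval (bound := fun _ => C * M) ?_ ?_ ?_ ?_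
  · refine Eventually.of_forall fun y => ?_
    refine AEStronglyMeasurable.smul ?_ hhm
    refine Measurable.aestronglyMeasurable ?_
    exact ((hχc.comp hζ).measurable.sub_const _).div (hζ.measurable.sub_const _)
  · refine Eventually.of_forall fun y => Eventually.of_forall fun t ht => ?_
    rw [norm_smul, norm_div]
    have h1 : ‖χ (ζ t) - χ y‖ / ‖ζ t - y‖ ≤ C := div_le_of_le_mul₀ (norm_nonneg _) hC (hχ _ _)
    exact mul_le_mul h1 (hM t (uIoc_subset_uIcc ht)) (norm_nonneg _) hC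
  · exact intervalIntegrable_const
  · have hnull : volume {t : ℝ | ζ t = x} = 0 := by
      refine Set.Subsingleton.measure_zero ?_ _
      intro a ha b hb
      exact hinj (ha.trans hb.symm)
    have hae : ∀ᵐ t : ℝ, ζ t ≠ x := by
      rw [ae_iff]
      simpa using hnull
    filter_upwards [hae] with t ht _
    refine ContinuousAt.smul ?_ continuousAt_const
    refine ContinuousAt.div (continuousAt_const.sub hχc.continuousAt)
      (continuousAt_const.sub continuousAt_id) (sub_ne_zero.2 ht)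

end Pool.Agent.Y288.VG
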