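import Pool.Agent.Y288.VG.RectB

set_option autoImplicit false

open Complex Set Metric Filter Topology MeasureTheory
open scoped Real Interval

namespace Pool.Agent.Y288.VG

variable {W : Type*} [NormedAddCommGroup W] [NormedSpace ℂ W] {α β γ δ : ℝ}

/-- the commutator of a cut-off with the Cauchy integral -/
noncomputable def TT (α β γ δ : ℝ) (χ : ℂ → ℂ) (f : ℂ → W) (x : ℂ) : W :=
  (2 * π * I : ℂ)⁻¹ • Bd α β γ δ (fun z => ((χ z - χ x) / (z - x)) • f z)

theorem inj_h (p : ℂ) : Function.Injective (fun t : ℝ => (t : ℂ) + p) := by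
  intro a b hab
  have := congrArg Complex.re hab
  simpa using this

theorem inj_v (p : ℂ) : Function.Injective (fun t : ℝ => p + (t : ℂ) * I) := by
  intro a b hab
  have := congrArg Complex.im hab
  simpa using this

theorem TT_cont (h : α ≤ β) (h' : γ ≤ δ) {χ : ℂ → ℂ} {f : ℂ → W} {C : ℝ} (hC : 0 ≤ C)
    (hχ : ∀ z x, ‖χ z - χ x‖ ≤ C * ‖z - x‖) (hχc : Continuous χ)
    (hf : ContinuousOn f (bdry α β γ δ)) : Continuous (TT α β γ δ χ f) := by
  unfold TT Bd
  have c1 := side_cont (ζ := fun t : ℝ => (t : ℂ) + γ * I) (by fun_prop) (inj_h _) (side1 h hf) hC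
    hχ hχc
  have c2 := side_cont (ζ := fun t : ℝ => (t : ℂ) + δ * I) (by fun_prop) (inj_h _) (side2 h hf) hC
    hχ hχc
  have c3 := side_cont (ζ := fun t : ℝ => (β : ℂ) + t * I) (by fun_prop) (inj_v _) (side3 h' hf) hC
    hχ hχc
  have c4 := side_cont (ζ := fun t : ℝ => (α : ℂ) + t * I) (by fun_prop) (inj_v _) (side4 h' hf) hC
    hχ hχc
  exact (((c1.sub c2).add (c3.const_smul I)).sub (c4.const_smul I)).const_smul _

variable [CompleteSpace W]

/-- in the open rectangle, and where the cut-off vanishes -/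
theorem TT_eq (h : α ≤ β) (h' : γ ≤ δ) {χ : ℂ → ℂ} (hχc : Continuous χ) {f : ℂ → W}
    (hc : ContinuousOn f (Icc α β ×ℂ Icc γ δ))
    (hd : DifferentiableOn ℂ f (Ioo α β ×ℂ Ioo γ δ)) {x : ℂ}
    (hx : x ∈ Ioo α β ×ℂ Ioo γ δ ∨ χ x = 0) :
    χ x • f x + TT α β γ δ χ f x =
      (2 * π * I : ℂ)⁻¹ • Bd α β γ δ (fun z => (z - x)⁻¹ • (χ z • f z)) := by
  rcases hx with hx | hx
  · have hcb : ContinuousOn f (bdry α β γ δ) := hc.mono (bdry_sub h h')
    have hinv : ContinuousOn (fun z => (z - x)⁻¹) (bdry α β γ δ) :=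
      (continuousOn_id.sub continuousOn_const).inv₀ fun z hz => sub_ne_zero.2 (bdry_ne hz hx)
    have i1 : ContinuousOn (fun z => (z - x)⁻¹ • (χ z • f z)) (bdry α β γ δ) :=
      hinv.smul (hχc.continuousOn.smul hcb)
    have i2 : ContinuousOn (fun z => χ x • ((z - x)⁻¹ • f z)) (bdry α β γ δ) :=
      continuousOn_const.smul (hinv.smul hcb)
    have e1 : Bd α β γ δ (fun z => ((χ z - χ x) / (z - x)) • f z) =
        Bd α β γ δ (fun z => (z - x)⁻¹ • (χ z • f z) - χ x • ((z - x)⁻¹ • f z)) := by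
      refine Bd_congr h h' fun z _ => ?_
      rw [div_eq_mul_inv, sub_mul, sub_smul, mul_smul, mul_smul, smul_comm (χ z)]
    unfold TT
    rw [e1, Bd_sub h h' i1 i2, Bd_smul, cauchy_rect h h' hc hd hx, smul_sub, smul_comm (χ x),
      smul_smul (2 * π * I : ℂ)⁻¹, inv_mul_cancel₀ (by simp [Real.pi_ne_zero, I_ne_zero]), one_smul]
    abel
  · unfold TT
    rw [hx, zero_smul, zero_add]
    congr 1
    refine Bd_congr h h' fun z _ => ?_
    rw [sub_zero, div_eq_mul_inv, mul_smul, smul_comm (χ z)]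

theorem f_cont {χ : ℂ → ℂ} (hχc : Continuous χ) {f : ℂ → W} {S N Z : Set ℂ}
    (hN : IsClosed N) (hZ : IsClosed Z) (hS : S ⊆ N ∪ Z) (hc : ContinuousOn f N)
    (hz : ∀ z ∈ Z, χ z = 0) : ContinuousOn (fun z => χ z • f z) S := by
  refine ContinuousOn.mono ?_ hS
  refine ContinuousOn.union_of_isClosed (hχc.continuousOn.smul hc) ?_ hN hZ
  refine (continuousOn_const (c := (0 : W))).congr fun z hz' => ?_
  rw [hz z hz', zero_smul]

/-- the clamp -/
noncomputable def clampL (α β : ℝ) (z : ℂ) : ℂ := ((max 0 (min 1 ((z.re - α) / (β - α))) : ℝ) : ℂ)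

theorem clampL_cont (α β : ℝ) : Continuous (clampL α β) := by
  unfold clampL
  fun_prop

theorem clampL_lip (h2 : α < β) (z x : ℂ) :
    ‖clampL α β z - clampL α β x‖ ≤ (β - α)⁻¹ * ‖z - x‖ := by
  unfold clampL
  rw [← ofReal_sub, norm_real, Real.norm_eq_abs]
  have hpos : 0 < β - α := by linarith
  have h1 : |max 0 (min 1 ((z.re - α) / (β - α))) - max 0 (min 1 ((x.re - α) / (β - α)))| ≤
      |(z.re - α) / (β - α) - (x.re - α) / (β - α)| := by
    refine (abs_max_sub_max_le_max _ _ _ _).trans ?_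
    rw [sub_self, abs_zero]
    refine max_le (abs_nonneg _) ?_
    refine (abs_min_sub_min_le_max _ _ _ _).trans ?_
    rw [sub_self, abs_zero]
    exact max_le (abs_nonneg _) le_rfl
  refine h1.trans ?_
  rw [← sub_div, abs_div, abs_of_pos hpos, div_eq_inv_mul]
  refine mul_le_mul_of_nonneg_left ?_ (by positivity)
  have : z.re - α - (x.re - α) = (z - x).re := by simp
  rw [this]
  exact abs_re_le_norm _

theorem clampL_left (h2 : α < β) {z : ℂ} (hz : z.re ≤ α) : clampL α β z = 0 := by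
  unfold clampL
  have h1 : (z.re - α) / (β - α) ≤ 0 := div_nonpos_of_nonpos_of_nonneg (by linarith) (by linarith)
  rw [max_eq_left ((min_le_right _ _).trans h1), ofReal_zero]

theorem clampL_right (h2 : α < β) {z : ℂ} (hz : β ≤ z.re) : clampL α β z = 1 := by
  unfold clampL
  have h1 : 1 ≤ (z.re - α) / (β - α) := by
    rw [le_div_iff₀ (by linarith)]; linarith
  rw [min_eq_left h1, max_eq_right zero_le_one, ofReal_one]

/-- JOB A1. Additive Cousin problem, without loss of domain, for two overlapping rectangles. -/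
theorem rect_split {W : Type*} [NormedAddCommGroup W] [NormedSpace ℂ W] [CompleteSpace W]
    {a α β b γ δ : ℝ} (h1 : a ≤ α) (h2 : α < β) (h3 : β ≤ b) (h4 : γ < δ)
    {f : ℂ → W} (hc : ContinuousOn f (Icc α β ×ℂ Icc γ δ))
    (hd : DifferentiableOn ℂ f (Ioo α β ×ℂ Ioo γ δ)) :
    ∃ f₁ f₂ : ℂ → W,
      ContinuousOn f₁ (Icc a β ×ℂ Icc γ δ) ∧ DifferentiableOn ℂ f₁ (Ioo a β ×ℂ Ioo γ δ) ∧
      ContinuousOn f₂ (Icc α b ×ℂ Icc γ δ) ∧ DifferentiableOn ℂ f₂ (Ioo α b ×ℂ Ioo γ δ) ∧
      ∀ z ∈ Icc α β ×ℂ Icc γ δ, f z = f₁ z + f₂ z := by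
  have hpos : 0 ≤ (β - α)⁻¹ := inv_nonneg.2 (by linarith)
  have hcb : ContinuousOn f (bdry α β γ δ) := hc.mono (bdry_sub h2.le h4.le)
  have hNc : IsClosed (Icc α β ×ℂ Icc γ δ) := isClosed_Icc.reProdIm isClosed_Icc
  set χ : ℂ → ℂ := clampL α β with hχ
  set χ' : ℂ → ℂ := fun z => 1 - clampL α β z with hχ'
  have hχ'c : Continuous χ' := continuous_const.sub (clampL_cont α β)
  have hlip' : ∀ z x, ‖χ' z - χ' x‖ ≤ (β - α)⁻¹ * ‖z - x‖ := by
    intro z x
    have e : χ' z - χ' x = -(clampL α β z - clampL α β x) := by simp only [hχ']; ring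
    rw [e, norm_neg]
    exact clampL_lip h2 z x
  have hT : Continuous (TT α β γ δ χ f) :=
    TT_cont h2.le h4.le hpos (clampL_lip h2) (clampL_cont α β) hcb
  have hT' : Continuous (TT α β γ δ χ' f) := TT_cont h2.le h4.le hpos hlip' hχ'c hcb
  have s1 := side1 h2.le hcb
  have s2 := side2 h2.le hcb
  have s3 := side3 h4.le hcb
  have s4 := side4 h4.le hcb
  refine ⟨fun x => χ x • f x + TT α β γ δ χ f x, fun x => χ' x • f x + TT α β γ δ χ' f x,
    ?_, ?_, ?_, ?_, ?_⟩
  · refine ContinuousOn.add ?_ hT.continuousOn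
    refine f_cont (Z := {z | z.re ≤ α}) (clampL_cont α β) hNc
      (isClosed_le continuous_re continuous_const) ?_ hc fun z hz => clampL_left h2 hz
    intro z hz
    rw [mem_reProdIm] at hz
    by_cases hzα : z.re ≤ α
    · exact Or.inr hzα
    · exact Or.inl (mem_reProdIm.2 ⟨⟨(not_le.1 hzα).le, hz.1.2⟩, hz.2⟩)
  · -- holomorphy on the left rectangle
    have key : ∀ x ∈ Ioo a β ×ℂ Ioo γ δ, χ x • f x + TT α β γ δ χ f x =
        (2 * π * I : ℂ)⁻¹ • ((∫ t : ℝ in α..β, ((t + γ * I : ℂ) - x)⁻¹ • (χ (t + γ * I) • f (t + γ * I))) -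
          (∫ t : ℝ in α..β, ((t + δ * I : ℂ) - x)⁻¹ • (χ (t + δ * I) • f (t + δ * I))) +
          I • (∫ y : ℝ in γ..δ, ((β + y * I : ℂ) - x)⁻¹ • (χ (β + y * I) • f (β + y * I)))) := by
      intro x hx
      rw [mem_reProdIm] at hx
      rw [TT_eq h2.le h4.le (clampL_cont α β) hc hd (by
        by_cases hxα : x.re ≤ α
        · exact Or.inr (clampL_left h2 hxα)
        · exact Or.inl (mem_reProdIm.2 ⟨⟨not_le.1 hxα, hx.1.2⟩, hx.2⟩))]
      congr 1
      unfold Bd
      have : (∫ y : ℝ in γ..δ, ((α + y * I : ℂ) - x)⁻¹ • (χ (α + y * I) • f (α + y * I))) = 0 := by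
        refine intervalIntegral.integral_zero_ae (Eventually.of_forall fun y _ => ?_)
        rw [hχ, clampL_left h2 (by simp), zero_smul, smul_zero]
      rw [this, smul_zero, sub_zero]
    refine DifferentiableOn.congr ?_ key
    refine DifferentiableOn.const_smul ?_ _
    have hh1 : ContinuousOn (fun t : ℝ => χ (t + γ * I) • f (t + γ * I)) (uIcc α β) :=
      ((clampL_cont α β).comp (by fun_prop)).continuousOn.smul s1
    have hh2 : ContinuousOn (fun t : ℝ => χ (t + δ * I) • f (t + δ * I)) (uIcc α β) :=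
      ((clampL_cont α β).comp (by fun_prop)).continuousOn.smul s2
    have hh3 : ContinuousOn (fun t : ℝ => χ (β + t * I) • f (β + t * I)) (uIcc γ δ) :=
      ((clampL_cont α β).comp (by fun_prop)).continuousOn.smul s3
    refine (DifferentiableOn.sub ?_ ?_).add (DifferentiableOn.const_smul ?_ _)
    · refine (side_diff (ζ := fun t : ℝ => (t : ℂ) + γ * I) (by fun_prop) hh1).mono ?_
      intro x hx t _ he
      rw [mem_reProdIm] at hx
      have := congrArg Complex.im he
      simp at this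
      linarith [hx.2.1]
    · refine (side_diff (ζ := fun t : ℝ => (t : ℂ) + δ * I) (by fun_prop) hh2).mono ?_
      intro x hx t _ he
      rw [mem_reProdIm] at hx
      have := congrArg Complex.im he
      simp at this
      linarith [hx.2.2]
    · refine (side_diff (ζ := fun t : ℝ => (β : ℂ) + t * I) (by fun_prop) hh3).mono ?_
      intro x hx t _ he
      rw [mem_reProdIm] at hx
      have := congrArg Complex.re he
      simp at this
      linarith [hx.1.2]
  · refine ContinuousOn.add ?_ hT'.continuousOn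
    refine f_cont (Z := {z | β ≤ z.re}) hχ'c hNc
      (isClosed_le continuous_const continuous_re) ?_ hc fun z hz => ?_
    · intro z hz
      rw [mem_reProdIm] at hz
      by_cases hzβ : β ≤ z.re
      · exact Or.inr hzβ
      · exact Or.inl (mem_reProdIm.2 ⟨⟨hz.1.1, (not_le.1 hzβ).le⟩, hz.2⟩)
    · simp only [hχ', clampL_right h2 hz, sub_self]
  · have key : ∀ x ∈ Ioo α b ×ℂ Ioo γ δ, χ' x • f x + TT α β γ δ χ' f x =
        (2 * π * I : ℂ)⁻¹ • ((∫ t : ℝ in α..β, ((t + γ * I : ℂ) - x)⁻¹ • (χ' (t + γ * I) • f (t + γ * I))) -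
          (∫ t : ℝ in α..β, ((t + δ * I : ℂ) - x)⁻¹ • (χ' (t + δ * I) • f (t + δ * I))) -
          I • (∫ y : ℝ in γ..δ, ((α + y * I : ℂ) - x)⁻¹ • (χ' (α + y * I) • f (α + y * I)))) := by
      intro x hx
      rw [mem_reProdIm] at hx
      rw [TT_eq h2.le h4.le hχ'c hc hd (by
        by_cases hxβ : β ≤ x.re
        · refine Or.inr ?_
          simp only [hχ', clampL_right h2 hxβ, sub_self]
        · exact Or.inl (mem_reProdIm.2 ⟨⟨hx.1.1, not_le.1 hxβ⟩, hx.2⟩))]
      congr 1
      unfold Bd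
      have : (∫ y : ℝ in γ..δ, ((β + y * I : ℂ) - x)⁻¹ • (χ' (β + y * I) • f (β + y * I))) = 0 := by
        refine intervalIntegral.integral_zero_ae (Eventually.of_forall fun y _ => ?_)
        have : χ' (β + y * I) = 0 := by
          simp only [hχ']
          rw [clampL_right h2 (by simp), sub_self]
        rw [this, zero_smul, smul_zero]
      rw [this, smul_zero, add_zero]
    refine DifferentiableOn.congr ?_ key
    refine DifferentiableOn.const_smul ?_ _
    have hh1 : ContinuousOn (fun t : ℝ => χ' (t + γ * I) • f (t + γ * I)) (uIcc α β) :=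
      (hχ'c.comp (by fun_prop)).continuousOn.smul s1
    have hh2 : ContinuousOn (fun t : ℝ => χ' (t + δ * I) • f (t + δ * I)) (uIcc α β) :=
      (hχ'c.comp (by fun_prop)).continuousOn.smul s2
    have hh4 : ContinuousOn (fun t : ℝ => χ' (α + t * I) • f (α + t * I)) (uIcc γ δ) :=
      (hχ'c.comp (by fun_prop)).continuousOn.smul s4
    refine (DifferentiableOn.sub ?_ ?_).sub (DifferentiableOn.const_smul ?_ _)
    · refine (side_diff (ζ := fun t : ℝ => (t : ℂ) + γ * I) (by fun_prop) hh1).mono ?_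
      intro x hx t _ he
      rw [mem_reProdIm] at hx
      have := congrArg Complex.im he
      simp at this
      linarith [hx.2.1]
    · refine (side_diff (ζ := fun t : ℝ => (t : ℂ) + δ * I) (by fun_prop) hh2).mono ?_
      intro x hx t _ he
      rw [mem_reProdIm] at hx
      have := congrArg Complex.im he
      simp at this
      linarith [hx.2.2]
    · refine (side_diff (ζ := fun t : ℝ => (α : ℂ) + t * I) (by fun_prop) hh4).mono ?_
      intro x hx t _ he
      rw [mem_reProdIm] at hx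
      have := congrArg Complex.re he
      simp at this
      linarith [hx.1.1]
  · intro z _
    -- the commutators cancel
    have hTT : TT α β γ δ χ' f z = -TT α β γ δ χ f z := by
      unfold TT
      rw [← smul_neg]
      congr 1
      have : Bd α β γ δ (fun w => ((χ' w - χ' z) / (w - z)) • f w) =
          Bd α β γ δ (fun w => (-1 : ℂ) • (((χ w - χ z) / (w - z)) • f w)) := by
        refine Bd_congr h2.le h4.le fun w _ => ?_
        rw [smul_smul]
        congr 1
        simp only [hχ', hχ]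
        ring
      rw [this, Bd_smul, neg_one_smul]
    simp only
    rw [hTT]
    have : χ' z • f z = f z - χ z • f z := by
      simp only [hχ', hχ]
      rw [sub_smul, one_smul]
    rw [this]
    abel

end Pool.Agent.Y288.VG
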